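import Mathlib
set_option autoImplicit false

/-! Sparse vectors supported in half of the coordinates. -/

open scoped Classical
set_option linter.unusedSectionVars false
set_option linter.unusedVariables false

namespace Pool.Agent.T9h99.Sym

variable {n : ℕ} {U : Type*} [AddCommGroup U]

/-- the vectors supported in `J` -/
noncomputable def sup (W : Finset (Fin n → U)) (J : Finset (Fin n)) : Finset (Fin n → U) :=
  W.filter (fun w => ∀ i, i ∉ J → w i = 0)

theorem mem_sup {W : Finset (Fin n → U)} {J : Finset (Fin n)} {w : Fin n → U} :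
    w ∈ sup W J ↔ w ∈ W ∧ ∀ i, i ∉ J → w i = 0 := Finset.mem_filter

/-- number of nonzero coordinates -/
noncomputable def wt (w : Fin n → U) : ℕ := (Finset.univ.filter (fun i => w i ≠ 0)).card

theorem step (W : Finset (Fin n → U)) {t : ℕ} (hW : ∀ w ∈ W, wt w ≤ t) (J : Finset (Fin n))
    (hJ : J.Nonempty) :
    ∃ j ∈ J, ((J.card : ℝ) - t) * (sup W J).card ≤ J.card * (sup W (J.erase j)).card := by
  by_contra hcon
  push Not at hcon
  have h1 : ∑ j ∈ J, (J.card : ℝ) * (sup W (J.erase j)).card <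
      ∑ j ∈ J, ((J.card : ℝ) - t) * (sup W J).card :=
    Finset.sum_lt_sum_of_nonempty hJ fun j hj => hcon j hj
  rw [Finset.sum_const, nsmul_eq_mul, ← Finset.mul_sum] at h1
  have hJ0 : (0 : ℝ) < J.card := by exact_mod_cast hJ.card_pos
  have h2 : ∑ j ∈ J, ((sup W (J.erase j)).card : ℝ) < ((J.card : ℝ) - t) * (sup W J).card :=
    lt_of_mul_lt_mul_left h1 hJ0.le
  -- double counting
  have h3 : ∑ j ∈ J, (sup W (J.erase j)).card =
      ∑ w ∈ sup W J, (J.filter (fun j => w j = 0)).card := by
    have h4 : ∀ j ∈ J, (sup W (J.erase j)).card = ((sup W J).filter (fun w => w j = 0)).card := by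
      intro j hj
      congr 1
      ext w
      rw [Finset.mem_filter, mem_sup, mem_sup]
      constructor
      · rintro ⟨g1, g2⟩
        refine ⟨⟨g1, fun i hi => g2 i fun h => hi (Finset.mem_of_mem_erase h)⟩, g2 j ?_⟩
        exact Finset.notMem_erase j J
      · rintro ⟨⟨g1, g2⟩, g3⟩
        refine ⟨g1, fun i hi => ?_⟩
        by_cases hij : i = j
        · rw [hij]
          exact g3
        · exact g2 i fun h => hi (Finset.mem_erase.2 ⟨hij, h⟩)
    rw [Finset.sum_congr rfl h4]
    simp only [Finset.card_filter]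
    rw [Finset.sum_comm]
  have h4 : ((J.card : ℝ) - t) * (sup W J).card ≤
      ∑ j ∈ J, ((sup W (J.erase j)).card : ℝ) := by
    have h5 : ∑ j ∈ J, ((sup W (J.erase j)).card : ℝ) =
        ∑ w ∈ sup W J, ((J.filter (fun j => w j = 0)).card : ℝ) := by exact_mod_cast h3
    rw [h5, mul_comm, ← nsmul_eq_mul, ← Finset.sum_const]
    refine Finset.sum_le_sum fun w hw => ?_
    have h6 := Finset.card_filter_add_card_filter_not (s := J) (fun j => w j = 0)
    have h7 : (J.filter (fun j => ¬ w j = 0)).card ≤ t := by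
      refine le_trans (Finset.card_le_card ?_) (hW w (mem_sup.1 hw).1)
      intro j hj
      exact Finset.mem_filter.2 ⟨Finset.mem_univ _, (Finset.mem_filter.1 hj).2⟩
    have h8 : (J.card : ℝ) ≤ (J.filter (fun j => w j = 0)).card + t := by
      have : J.card ≤ (J.filter (fun j => w j = 0)).card + t := by omega
      exact_mod_cast this
    linarith
  linarith

/-- **Shrinking the support.** -/
theorem shrink (W : Finset (Fin n → U)) {t : ℕ} (hW : ∀ w ∈ W, wt w ≤ t) (hn : 4 ≤ n)
    (ht : 8 * t ≤ n) :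
    ∃ J : Finset (Fin n), J.card = n / 2 ∧ (W.card : ℝ) ≤ Real.exp (4 * t) * (sup W J).card := by
  have hn0 : (0 : ℝ) < n := by
    have : 0 < n := by omega
    exact_mod_cast this
  have key : ∀ d, d ≤ n - n / 2 → ∃ J : Finset (Fin n), J.card = n - d ∧
      (W.card : ℝ) ≤ Real.exp (d * (4 * t / n)) * (sup W J).card := by
    intro d
    induction d with
    | zero =>
      intro _
      refine ⟨Finset.univ, by simp, ?_⟩
      have h1 : sup W Finset.univ = W := by
        ext w
        rw [mem_sup]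
        exact ⟨fun h => h.1, fun h => ⟨h, fun i hi => absurd (Finset.mem_univ i) hi⟩⟩
      rw [h1]
      simp
    | succ d ih =>
      intro hd
      obtain ⟨J, hJ1, hJ2⟩ := ih (by omega)
      have hJne : J.Nonempty := Finset.card_pos.1 (by omega)
      obtain ⟨j, hj, h1⟩ := step W hW J hJne
      refine ⟨J.erase j, by rw [Finset.card_erase_of_mem hj, hJ1]; omega, ?_⟩
      -- one step loses a factor at most `exp (4 t / n)`
      have hm : (n : ℝ) / 4 ≤ (J.card : ℝ) - t := by
        have h2 : n + 4 * t ≤ 4 * J.card := by omega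
        have h3 : ((n : ℝ) + 4 * t) ≤ 4 * J.card := by exact_mod_cast h2
        linarith
      have hm0 : 0 < (J.card : ℝ) - t := by linarith [div_pos hn0 (by norm_num : (0 : ℝ) < 4)]
      have h2 : (J.card : ℝ) ≤ Real.exp (4 * t / n) * ((J.card : ℝ) - t) := by
        have h3 := Real.add_one_le_exp (4 * (t : ℝ) / n)
        have h4 : (4 * (t : ℝ) / n + 1) * ((J.card : ℝ) - t) ≤
            Real.exp (4 * t / n) * ((J.card : ℝ) - t) := mul_le_mul_of_nonneg_right h3 hm0.le
        refine le_trans ?_ h4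
        have h5 : (t : ℝ) ≤ 4 * (t : ℝ) / n * ((J.card : ℝ) - t) := by
          have h6 : 4 * (t : ℝ) / n * (n / 4) = t := by field_simp
          calc (t : ℝ) = 4 * (t : ℝ) / n * (n / 4) := h6.symm
            _ ≤ _ := mul_le_mul_of_nonneg_left hm (by positivity)
        linarith
      have h3 : ((sup W J).card : ℝ) ≤ Real.exp (4 * t / n) * (sup W (J.erase j)).card := by
        have h4 : ((J.card : ℝ) - t) * (sup W J).card ≤
            ((J.card : ℝ) - t) * (Real.exp (4 * t / n) * (sup W (J.erase j)).card) := by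
          calc ((J.card : ℝ) - t) * (sup W J).card ≤ J.card * (sup W (J.erase j)).card := h1
            _ ≤ (Real.exp (4 * t / n) * ((J.card : ℝ) - t)) * (sup W (J.erase j)).card :=
                mul_le_mul_of_nonneg_right h2 (Nat.cast_nonneg _)
            _ = _ := by ring
        exact le_of_mul_le_mul_left h4 hm0
      calc (W.card : ℝ) ≤ Real.exp (d * (4 * t / n)) * (sup W J).card := hJ2
        _ ≤ Real.exp (d * (4 * t / n)) * (Real.exp (4 * t / n) * (sup W (J.erase j)).card) :=
            mul_le_mul_of_nonneg_left h3 (Real.exp_pos _).le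
        _ = Real.exp (((d + 1 : ℕ) : ℝ) * (4 * t / n)) * (sup W (J.erase j)).card := by
            rw [← mul_assoc, ← Real.exp_add]
            congr 2
            push_cast
            ring
  obtain ⟨J, hJ1, hJ2⟩ := key (n - n / 2) (le_refl _)
  refine ⟨J, by omega, hJ2.trans (mul_le_mul_of_nonneg_right (Real.exp_le_exp.2 ?_)
    (Nat.cast_nonneg _))⟩
  have h1 : ((n - n / 2 : ℕ) : ℝ) ≤ n := by exact_mod_cast Nat.sub_le _ _
  calc ((n - n / 2 : ℕ) : ℝ) * (4 * t / n) ≤ n * (4 * t / n) :=
        mul_le_mul_of_nonneg_right h1 (by positivity)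
    _ = 4 * t := by field_simp

/-- a permutation moving one set to another set of the same size -/
theorem exists_perm_set {J J' : Finset (Fin n)} (h : J.card = J'.card) :
    ∃ σ : Equiv.Perm (Fin n), ∀ i, σ i ∈ J' ↔ i ∈ J := by
  have e : {x // x ∈ J} ≃ {x // x ∈ J'} := Finset.equivOfCardEq h
  refine ⟨e.extendSubtype, fun i => ?_⟩
  constructor
  · intro hi
    by_contra h1
    exact (Equiv.extendSubtype_not_mem e i h1) hi
  · intro hi
    exact Equiv.extendSubtype_mem e i hi

theorem sup_perm {W : Finset (Fin n → U)}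
    (hW : ∀ σ : Equiv.Perm (Fin n), ∀ w ∈ W, (fun i => w (σ i)) ∈ W) {J J' : Finset (Fin n)}
    (h : J.card = J'.card) : (sup W J).card ≤ (sup W J').card := by
  obtain ⟨σ, hσ⟩ := exists_perm_set h.symm
  refine Finset.card_le_card_of_injOn (fun w i => w (σ i)) ?_ ?_
  · intro w hw
    rw [Finset.mem_coe, mem_sup] at hw ⊢
    exact ⟨hW σ w hw.1, fun i hi => hw.2 _ fun h => hi ((hσ i).1 h)⟩
  · intro a _ b _ hab
    funext m
    have := congrFun hab (σ.symm m)
    simpa using this

/-- two disjoint halves -/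
theorem two_halves {W : Finset (Fin n → U)}
    (hW : ∀ σ : Equiv.Perm (Fin n), ∀ w ∈ W, (fun i => w (σ i)) ∈ W) {t : ℕ}
    (hwt : ∀ w ∈ W, wt w ≤ t) (hn : 4 ≤ n) (ht : 8 * t ≤ n) :
    ∃ J J' : Finset (Fin n), Disjoint J J' ∧
      (W.card : ℝ) ≤ Real.exp (4 * t) * (sup W J).card ∧
      (W.card : ℝ) ≤ Real.exp (4 * t) * (sup W J').card := by
  obtain ⟨J, hJ1, hJ2⟩ := shrink W hwt hn ht
  obtain ⟨J', hJ'1, hJ'2⟩ : ∃ J' ⊆ Jᶜ, J'.card = n / 2 := by
    apply Finset.exists_subset_card_eq
    rw [Finset.card_compl, Fintype.card_fin, hJ1]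
    omega
  refine ⟨J, J', ?_, hJ2, hJ2.trans ?_⟩
  · rw [Finset.disjoint_left]
    intro i hi hi'
    exact (Finset.mem_compl.1 (hJ'1 hi')) hi
  · refine mul_le_mul_of_nonneg_left ?_ (Real.exp_pos _).le
    exact_mod_cast sup_perm hW (hJ1.trans hJ'2.symm)

end Pool.Agent.T9h99.Sym
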