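import Pool.Agent.T9h99.Sym.Sparse
import Pool.Agent.T9h99.Sym.Shrink
set_option autoImplicit false

/-! A nearly constant symmetric set meets few cosets. -/

open scoped Classical Pointwise
set_option linter.unusedSectionVars false
set_option linter.unusedVariables false

namespace Pool.Agent.T9h99.Sym

variable {n : ℕ} {V : Type*} [AddCommGroup V] [Fintype V]

/-- `a` is `w` plus a constant modulo `N` -/
def Rep (N : AddSubgroup V) (a : Fin n → V) (w : Fin n → V ⧸ N) : Prop :=
  ∃ c : V ⧸ N, ∀ i, (QuotientAddGroup.mk (a i) : V ⧸ N) = w i + c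

/-- the sparse vectors modulo `N` -/
noncomputable def WW (B : Finset (Fin n → V)) (N : AddSubgroup V) (t : ℕ) :
    Finset (Fin n → V ⧸ N) :=
  Finset.univ.filter (fun w => wt w ≤ t ∧ ∃ a ∈ B, Rep N a w)

theorem mem_WW {B : Finset (Fin n → V)} {N : AddSubgroup V} {t : ℕ} {w : Fin n → V ⧸ N} :
    w ∈ WW B N t ↔ wt w ≤ t ∧ ∃ a ∈ B, Rep N a w := by
  unfold WW
  rw [Finset.mem_filter]
  exact ⟨fun h => h.2, fun h => ⟨Finset.mem_univ _, h⟩⟩

theorem wt_perm {U : Type*} [AddCommGroup U] (w : Fin n → U) (σ : Equiv.Perm (Fin n)) :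
    wt (fun i => w (σ i)) = wt w := by
  unfold wt
  refine Finset.card_bij (fun i _ => σ i) ?_ ?_ ?_
  · intro i hi
    exact Finset.mem_filter.2 ⟨Finset.mem_univ _, (Finset.mem_filter.1 hi).2⟩
  · intro i _ j _ h
    exact σ.injective h
  · intro j hj
    refine ⟨σ.symm j, Finset.mem_filter.2 ⟨Finset.mem_univ _, ?_⟩, Equiv.apply_symm_apply σ j⟩
    beta_reduce
    rw [Equiv.apply_symm_apply]
    exact (Finset.mem_filter.1 hj).2

theorem WW_perm {B : Finset (Fin n → V)} (hB : Inv B) {N : AddSubgroup V} {t : ℕ}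
    (σ : Equiv.Perm (Fin n)) (w : Fin n → V ⧸ N) (hw : w ∈ WW B N t) :
    (fun i => w (σ i)) ∈ WW B N t := by
  rw [mem_WW] at hw ⊢
  obtain ⟨h1, a, ha, c, hc⟩ := hw
  exact ⟨by rw [wt_perm]; exact h1, fun i => a (σ i), hB σ a ha, c, fun i => hc (σ i)⟩

theorem exists_rep {B : Finset (Fin n → V)} {N : AddSubgroup V} {t : ℕ} {a : Fin n → V}
    (ha : a ∈ B) (h : ∃ j, dif N a j ≤ t) : ∃ w ∈ WW B N t, Rep N a w := by
  obtain ⟨j, hj⟩ := h
  set w : Fin n → V ⧸ N := fun i => QuotientAddGroup.mk (a i - a j) with hw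
  have hr : Rep N a w := ⟨QuotientAddGroup.mk (a j), fun i => by
    rw [hw]
    simp only
    rw [← QuotientAddGroup.mk_add, sub_add_cancel]⟩
  refine ⟨w, mem_WW.2 ⟨?_, a, ha, hr⟩, hr⟩
  unfold wt
  unfold dif at hj
  convert hj using 3
  rename_i i _
  rw [hw]
  simp only
  rw [ne_eq, QuotientAddGroup.eq_zero_iff]

/-- few vectors are not everything -/
theorem exists_common_zero {U : Type*} [AddCommGroup U] {t : ℕ} (ht : 4 * t < n)
    {w1 w2 w3 w4 : Fin n → U} (h1 : wt w1 ≤ t) (h2 : wt w2 ≤ t) (h3 : wt w3 ≤ t)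
    (h4 : wt w4 ≤ t) : ∃ i, w1 i = 0 ∧ w2 i = 0 ∧ w3 i = 0 ∧ w4 i = 0 := by
  by_contra hcon
  push Not at hcon
  have h5 : (Finset.univ : Finset (Fin n)) ⊆
      ((Finset.univ.filter (fun i => w1 i ≠ 0) ∪ Finset.univ.filter (fun i => w2 i ≠ 0)) ∪
        Finset.univ.filter (fun i => w3 i ≠ 0)) ∪ Finset.univ.filter (fun i => w4 i ≠ 0) := by
    intro i _
    simp only [Finset.mem_union, Finset.mem_filter, Finset.mem_univ, true_and]
    by_cases g1 : w1 i = 0
    · by_cases g2 : w2 i = 0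
      · by_cases g3 : w3 i = 0
        · exact Or.inr (hcon i g1 g2 g3)
        · exact Or.inl (Or.inr g3)
      · exact Or.inl (Or.inl (Or.inr g2))
    · exact Or.inl (Or.inl (Or.inl g1))
  have h6 := Finset.card_le_card h5
  rw [Finset.card_univ, Fintype.card_fin] at h6
  have h7 := h6.trans (Finset.card_union_le _ _)
  have h8 := Finset.card_union_le
    (Finset.univ.filter (fun i => w1 i ≠ 0) ∪ Finset.univ.filter (fun i => w2 i ≠ 0))
    (Finset.univ.filter (fun i => w3 i ≠ 0))
  have h9 := Finset.card_union_le (Finset.univ.filter (fun i => w1 i ≠ 0))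
    (Finset.univ.filter (fun i => w2 i ≠ 0))
  unfold wt at h1 h2 h3 h4
  omega

/-- **Few cosets.** -/
theorem few_cosets {A B : Finset (Fin n → V)} (hA : A.Nonempty) (hBA : B ⊆ A) (hB : Inv B)
    (hAB : A.card ≤ 2 * B.card) {K : ℝ} (hK1 : 1 ≤ K)
    (hK : ((A + A).card : ℝ) ≤ K * A.card) (N : AddSubgroup V) {t : ℕ} (hn : 8 ≤ n)
    (ht : 8 * t ≤ n) (hsp : ∀ a ∈ B, ∃ j, dif N a j ≤ t) :
    ((WW B N t).card : ℝ) ≤ 2 * K ^ 3 * Real.exp (8 * t) := by
  set W := WW B N t with hW
  have hA0 : (0 : ℝ) < A.card := by exact_mod_cast hA.card_pos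
  have hBne : B.Nonempty := by
    rw [← Finset.card_pos]
    have := hA.card_pos
    omega
  have hB0 : (0 : ℝ) < B.card := by exact_mod_cast hBne.card_pos
  have hWne : W.Nonempty := by
    obtain ⟨a, ha⟩ := hBne
    obtain ⟨w, hw, _⟩ := exists_rep ha (hsp a ha)
    exact ⟨w, hw⟩
  have hwt : ∀ w ∈ W, wt w ≤ t := fun w hw => (mem_WW.1 hw).1
  -- the most popular fibre
  set Fb : (Fin n → V ⧸ N) → Finset (Fin n → V) := fun w => B.filter (fun a => Rep N a w) with hFb
  obtain ⟨w₀, hw₀, hmax⟩ := Finset.exists_max_image W (fun w => (Fb w).card) hWne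
  have hBW : B.card ≤ W.card * (Fb w₀).card := by
    have h1 : B ⊆ W.biUnion Fb := by
      intro a ha
      obtain ⟨w, hw, hr⟩ := exists_rep ha (hsp a ha)
      exact Finset.mem_biUnion.2 ⟨w, hw, Finset.mem_filter.2 ⟨ha, hr⟩⟩
    refine (Finset.card_le_card h1).trans (Finset.card_biUnion_le.trans ?_)
    rw [← smul_eq_mul]
    exact Finset.sum_le_card_nsmul _ _ _ hmax
  have hF0 : (0 : ℝ) < (Fb w₀).card := by
    have h1 : 0 < W.card * (Fb w₀).card := lt_of_lt_of_le hBne.card_pos hBW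
    exact_mod_cast Nat.pos_of_mul_pos_left h1
  obtain ⟨J, J', hJJ, hJ1, hJ2⟩ := two_halves (W := W) (fun σ w hw => WW_perm hB σ w hw) hwt
    (by omega) ht
  -- representatives
  have hex : ∀ w : Fin n → V ⧸ N, ∃ a : Fin n → V, w ∈ W → a ∈ B ∧ Rep N a w := by
    intro w
    by_cases hw : w ∈ W
    · obtain ⟨a, ha, hr⟩ := (mem_WW.1 hw).2
      exact ⟨a, fun _ => ⟨ha, hr⟩⟩
    · exact ⟨0, fun h => absurd h hw⟩
  choose r hr using hex
  have hinj : ((sup W J) ×ˢ (sup W J') ×ˢ (Fb w₀)).card ≤ (3 • A - 0 • A).card := by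
    refine Finset.card_le_card_of_injOn (fun p => r p.1 + r p.2.1 + p.2.2) ?_ ?_
    · intro p hp
      rw [Finset.mem_coe, Finset.mem_product, Finset.mem_product] at hp
      obtain ⟨h1, h2, h3⟩ := hp
      have g1 := hBA (hr _ (mem_sup.1 h1).1).1
      have g2 := hBA (hr _ (mem_sup.1 h2).1).1
      have g3 := hBA (Finset.mem_filter.1 h3).1
      have e3 : (3 : ℕ) • A = A + A + A := by simp [succ_nsmul]
      rw [Finset.mem_coe, e3, zero_nsmul, sub_zero]
      exact Finset.add_mem_add (Finset.add_mem_add g1 g2) g3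
    · rintro ⟨w, w', f⟩ hp ⟨v, v', g⟩ hq heq
      simp only [Finset.mem_coe, Finset.mem_product] at hp hq
      obtain ⟨h1, h2, h3⟩ := hp
      obtain ⟨k1, k2, k3⟩ := hq
      obtain ⟨_, c1, hc1⟩ := hr _ (mem_sup.1 h1).1
      obtain ⟨_, c2, hc2⟩ := hr _ (mem_sup.1 h2).1
      obtain ⟨c3, hc3⟩ := (Finset.mem_filter.1 h3).2
      obtain ⟨_, d1, hd1⟩ := hr _ (mem_sup.1 k1).1
      obtain ⟨_, d2, hd2⟩ := hr _ (mem_sup.1 k2).1
      obtain ⟨d3, hd3⟩ := (Finset.mem_filter.1 k3).2
      have hsum : ∀ i, w i + w' i + (c1 + c2 + c3) = v i + v' i + (d1 + d2 + d3) := by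
        intro i
        have h4 := congrArg (fun x : Fin n → V => (QuotientAddGroup.mk (x i) : V ⧸ N)) heq
        simp only [Pi.add_apply, QuotientAddGroup.mk_add] at h4
        rw [hc1, hc2, hc3, hd1, hd2, hd3] at h4
        have h5 : w₀ i + (w i + w' i + (c1 + c2 + c3)) = w₀ i + (v i + v' i + (d1 + d2 + d3)) := by
          have e1 : w₀ i + (w i + w' i + (c1 + c2 + c3)) =
              w i + c1 + (w' i + c2) + (w₀ i + c3) := by abel
          have e2 : w₀ i + (v i + v' i + (d1 + d2 + d3)) =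
              v i + d1 + (v' i + d2) + (w₀ i + d3) := by abel
          rw [e1, e2]
          exact h4
        exact add_left_cancel h5
      obtain ⟨i₀, g1, g2, g3, g4⟩ := exists_common_zero (n := n) (t := t) (by omega)
        (hwt _ (mem_sup.1 h1).1) (hwt _ (mem_sup.1 h2).1) (hwt _ (mem_sup.1 k1).1)
        (hwt _ (mem_sup.1 k2).1)
      have hc : c1 + c2 + c3 = d1 + d2 + d3 := by
        have := hsum i₀
        rw [g1, g2, g3, g4] at this
        simpa using this
      have hsum2 : ∀ i, w i + w' i = v i + v' i := by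
        intro i
        have := hsum i
        rw [hc] at this
        exact add_right_cancel this
      have hwv : w = v := by
        funext i
        by_cases hi : i ∈ J
        · have hi' : i ∉ J' := Finset.disjoint_left.1 hJJ hi
          have := hsum2 i
          rw [(mem_sup.1 h2).2 i hi', (mem_sup.1 k2).2 i hi', add_zero, add_zero] at this
          exact this
        · rw [(mem_sup.1 h1).2 i hi, (mem_sup.1 k1).2 i hi]
      have hwv' : w' = v' := by
        funext i
        have := hsum2 i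
        rw [hwv] at this
        exact add_left_cancel this
      have hfg : f = g := by
        simp only at heq
        rw [hwv, hwv'] at heq
        exact add_left_cancel heq
      rw [hwv, hwv', hfg]
  rw [Finset.card_product, Finset.card_product] at hinj
  have h3 := iter_le hA hK 3 0
  rw [add_zero] at h3
  have h4 : ((sup W J).card : ℝ) * ((sup W J').card * (Fb w₀).card) ≤ K ^ 3 * A.card := by
    have h5 : (((sup W J).card * ((sup W J').card * (Fb w₀).card) : ℕ) : ℝ) ≤
        ((3 • A - 0 • A).card : ℝ) := by exact_mod_cast hinj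
    push_cast at h5
    exact h5.trans h3
  have h5 : (A.card : ℝ) ≤ 2 * (W.card * (Fb w₀).card) := by
    have h6 : A.card ≤ 2 * (W.card * (Fb w₀).card) := hAB.trans (Nat.mul_le_mul_left 2 hBW)
    exact_mod_cast h6
  have hK3 : (0 : ℝ) ≤ K ^ 3 := by positivity
  have h6 : ((sup W J).card : ℝ) * (sup W J').card ≤ 2 * K ^ 3 * W.card := by
    have h7 : (((sup W J).card : ℝ) * (sup W J').card) * (Fb w₀).card ≤
        (2 * K ^ 3 * W.card) * (Fb w₀).card := by
      calc (((sup W J).card : ℝ) * (sup W J').card) * (Fb w₀).card =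
          ((sup W J).card : ℝ) * ((sup W J').card * (Fb w₀).card) := by ring
        _ ≤ K ^ 3 * A.card := h4
        _ ≤ K ^ 3 * (2 * (W.card * (Fb w₀).card)) := mul_le_mul_of_nonneg_left h5 hK3
        _ = _ := by ring
    exact le_of_mul_le_mul_right h7 hF0
  have hW0 : (0 : ℝ) < W.card := by exact_mod_cast hWne.card_pos
  have h7 : (W.card : ℝ) * W.card ≤ (2 * K ^ 3 * Real.exp (8 * t)) * W.card := by
    calc (W.card : ℝ) * W.card ≤ (Real.exp (4 * t) * (sup W J).card) *
          (Real.exp (4 * t) * (sup W J').card) :=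
          mul_le_mul hJ1 hJ2 hW0.le (by positivity)
      _ = Real.exp (8 * t) * (((sup W J).card : ℝ) * (sup W J').card) := by
          have e : Real.exp (8 * t) = Real.exp (4 * t) * Real.exp (4 * t) := by
            rw [← Real.exp_add]
            congr 1
            ring
          rw [e]
          ring
      _ ≤ Real.exp (8 * t) * (2 * K ^ 3 * W.card) :=
          mul_le_mul_of_nonneg_left h6 (Real.exp_pos _).le
      _ = _ := by ring
  exact le_of_mul_le_mul_right h7 hW0

/-- **Cover by few cosets.** -/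
theorem cover_diag {A B : Finset (Fin n → V)} (hA : A.Nonempty) (hBA : B ⊆ A) (hB : Inv B)
    (hAB : A.card ≤ 2 * B.card) {K : ℝ} (hK1 : 1 ≤ K)
    (hK : ((A + A).card : ℝ) ≤ K * A.card) (N : AddSubgroup V) {t : ℕ} (hn : 8 ≤ n)
    (ht : 8 * t ≤ n) (hsp : ∀ a ∈ B, ∃ j, dif N a j ≤ t) :
    ∃ T : Finset (Fin n → V), (T.card : ℝ) ≤ 8 * K ^ 7 * Real.exp (16 * t) ∧
      ∀ a ∈ A, ∃ s ∈ T, ∀ i j, (a i - s i) - (a j - s j) ∈ N := by
  have hW := few_cosets hA hBA hB hAB hK1 hK N hn ht hsp
  set W := WW B N t with hWdef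
  have hBne : B.Nonempty := by
    rw [← Finset.card_pos]
    have := hA.card_pos
    omega
  have hcov : ((A + B).card : ℝ) ≤ (2 * K) * B.card := by
    have h1 : ((A + B).card : ℝ) ≤ (A + A).card := by
      exact_mod_cast Finset.card_le_card (Finset.add_subset_add_left hBA)
    have h2 : (A.card : ℝ) ≤ 2 * B.card := by exact_mod_cast hAB
    nlinarith
  obtain ⟨F, hF1, hF2, hF3⟩ := Finset.ruzsa_covering_add hBne hcov
  have hex : ∀ w : Fin n → V ⧸ N, ∃ a : Fin n → V, w ∈ W → Rep N a w := by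
    intro w
    by_cases hw : w ∈ W
    · obtain ⟨a, ha, hr⟩ := (mem_WW.1 hw).2
      exact ⟨a, fun _ => hr⟩
    · exact ⟨0, fun h => absurd h hw⟩
  choose r hr using hex
  refine ⟨F + (W.image r - W.image r), ?_, ?_⟩
  · have h1 : ((F + (W.image r - W.image r)).card : ℝ) ≤ F.card * (W.card * W.card) := by
      have h2 := (Finset.card_add_le (s := F) (t := W.image r - W.image r))
      have h3 := (Finset.card_sub_le (s := W.image r) (t := W.image r))
      have h4 := Finset.card_image_le (s := W) (f := r)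
      have h5 : (F + (W.image r - W.image r)).card ≤ F.card * (W.card * W.card) :=
        h2.trans (Nat.mul_le_mul_left _ (h3.trans (Nat.mul_le_mul h4 h4)))
      exact_mod_cast h5
    have hW0 : (0 : ℝ) ≤ W.card := Nat.cast_nonneg _
    have hK0 : (0 : ℝ) ≤ K := by linarith
    calc ((F + (W.image r - W.image r)).card : ℝ) ≤ F.card * (W.card * W.card) := h1
      _ ≤ (2 * K) * ((2 * K ^ 3 * Real.exp (8 * t)) * (2 * K ^ 3 * Real.exp (8 * t))) :=
          mul_le_mul hF2 (mul_le_mul hW hW hW0 (by positivity)) (by positivity) (by positivity)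
      _ = 8 * K ^ 7 * Real.exp (16 * t) := by
          have e : Real.exp (16 * t) = Real.exp (8 * t) * Real.exp (8 * t) := by
            rw [← Real.exp_add]
            congr 1
            ring
          rw [e]
          ring
  · intro a ha
    obtain ⟨f, hf, d, hd, rfl⟩ := Finset.mem_add.1 (hF3 ha)
    obtain ⟨b, hb, b', hb', rfl⟩ := Finset.mem_sub.1 hd
    obtain ⟨w, hw, c, hc⟩ := exists_rep hb (hsp b hb)
    obtain ⟨w', hw', c', hc'⟩ := exists_rep hb' (hsp b' hb')
    obtain ⟨e, he⟩ := hr w hw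
    obtain ⟨e', he'⟩ := hr w' hw'
    refine ⟨f + (r w - r w'), Finset.add_mem_add hf (Finset.sub_mem_sub
      (Finset.mem_image_of_mem r hw) (Finset.mem_image_of_mem r hw')), fun i j => ?_⟩
    rw [← QuotientAddGroup.eq_zero_iff]
    simp only [Pi.add_apply, Pi.sub_apply, QuotientAddGroup.mk_add, QuotientAddGroup.mk_sub]
    rw [hc, hc, hc', hc', he, he, he', he']
    abel

end Pool.Agent.T9h99.Sym
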