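import Pool.Agent.T9h99.Sym.Stage
set_option autoImplicit false

/-! Vectors with entries in the subgroup and coordinate sum zero are almost periods. -/

open scoped Classical Pointwise
set_option linter.unusedSectionVars false
set_option linter.unusedVariables false

namespace Pool.Agent.T9h99.Sym

open H137.PFR H137.TwoPow H137.Weak

theorem iter_le {Γ : Type*} [AddCommGroup Γ] [DecidableEq Γ] {A : Finset Γ} (hA : A.Nonempty) {K : ℝ}
    (hK : ((A + A).card : ℝ) ≤ K * A.card) (k l : ℕ) :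
    ((k • A - l • A).card : ℝ) ≤ K ^ (k + l) * A.card := by
  have hA0 : (0 : ℝ) < A.card := by exact_mod_cast hA.card_pos
  have h2 := Finset.pluennecke_ruzsa_inequality_nsmul_sub_nsmul_add hA A k l
  have h3 : ((k • A - l • A).card : ℝ) ≤ ((A + A).card / A.card : ℝ) ^ (k + l) * A.card := by
    have h4 : (((k • A - l • A).card : ℚ≥0) : ℝ) ≤
        ((((A + A).card / A.card : ℚ≥0) ^ (k + l) * A.card : ℚ≥0) : ℝ) := by
      exact_mod_cast h2
    push_cast at h4
    exact h4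
  have h5 : ((A + A).card / A.card : ℝ) ≤ K := by
    rw [div_le_iff₀ hA0]
    exact hK
  exact h3.trans (mul_le_mul_of_nonneg_right (pow_le_pow_left₀ (by positivity) h5 _) hA0.le)

theorem mem_nine {Γ : Type*} [AddCommGroup Γ] [DecidableEq Γ] {A : Finset Γ} {x y z : Γ} (hx : x ∈ A)
    (hy : y ∈ (A - A) - (A - A)) (hz : z ∈ (A - A) - (A - A)) :
    x + (y + z) ∈ 5 • A - 4 • A := by
  obtain ⟨y1, h1, y2, h2, rfl⟩ := Finset.mem_sub.1 hy
  obtain ⟨z1, h3, z2, h4, rfl⟩ := Finset.mem_sub.1 hz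
  obtain ⟨a1, g1, a2, g2, rfl⟩ := Finset.mem_sub.1 h1
  obtain ⟨a3, g3, a4, g4, rfl⟩ := Finset.mem_sub.1 h2
  obtain ⟨a5, g5, a6, g6, rfl⟩ := Finset.mem_sub.1 h3
  obtain ⟨a7, g7, a8, g8, rfl⟩ := Finset.mem_sub.1 h4
  have e : x + ((a1 - a2 - (a3 - a4)) + (a5 - a6 - (a7 - a8))) =
      (x + a1 + a4 + a5 + a8) - (a2 + a3 + a6 + a7) := by abel
  rw [e]
  have e5 : (5 : ℕ) • A = A + A + A + A + A := by simp [succ_nsmul]
  have e4 : (4 : ℕ) • A = A + A + A + A := by simp [succ_nsmul]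
  rw [e5, e4]
  exact Finset.sub_mem_sub (Finset.add_mem_add (Finset.add_mem_add (Finset.add_mem_add
    (Finset.add_mem_add hx g1) g4) g5) g8) (Finset.add_mem_add (Finset.add_mem_add
    (Finset.add_mem_add g2 g3) g6) g7)

variable {n : ℕ} {V : Type*} [AddCommGroup V] [Fintype V]

/-- entries in `N`, zero beyond the coordinate `k` -/
noncomputable def Nk (n k : ℕ) (N : AddSubgroup V) : Finset (Fin n → V) :=
  Finset.univ.filter (fun x => ∀ i : Fin n, x i ∈ N ∧ (k < (i : ℕ) → x i = 0))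

theorem mem_Nk {k : ℕ} {N : AddSubgroup V} {x : Fin n → V} :
    x ∈ Nk n k N ↔ ∀ i : Fin n, x i ∈ N ∧ (k < (i : ℕ) → x i = 0) := by
  unfold Nk
  rw [Finset.mem_filter]
  exact ⟨fun h => h.2, fun h => ⟨Finset.mem_univ _, h⟩⟩

theorem card_Nk_le {k : ℕ} (hk : k < n) (N : AddSubgroup V) :
    (Nk n k N).card ≤ Nat.card N ^ (k + 1) := by
  have h1 : (Nk n k N).card ≤ (Finset.univ : Finset (Fin (k + 1) → N)).card := by
    refine Finset.card_le_card_of_injOn
      (fun x j => if h : x ⟨j, by omega⟩ ∈ N then ⟨x ⟨j, by omega⟩, h⟩ else 0)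
      (fun x _ => Finset.mem_coe.2 (Finset.mem_univ _)) ?_
    intro x hx y hy hxy
    rw [Finset.mem_coe, mem_Nk] at hx hy
    funext i
    by_cases hi : k < (i : ℕ)
    · rw [(hx i).2 hi, (hy i).2 hi]
    · have h2 := congrFun hxy ⟨i, by omega⟩
      simp only [Fin.eta] at h2
      rw [dif_pos (hx i).1, dif_pos (hy i).1] at h2
      exact congrArg Subtype.val h2
  rw [Finset.card_univ, Fintype.card_fun, Fintype.card_fin] at h1
  rwa [Nat.card_eq_fintype_card]

/-- truncation -/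
def tr (k : ℕ) : (Fin n → V) →+ (Fin n → V) where
  toFun x := fun i => if (i : ℕ) ≤ k then x i else 0
  map_zero' := by
    funext i
    simp
  map_add' x y := by
    funext i
    by_cases h : (i : ℕ) ≤ k <;> simp [h]

theorem tr_apply (k : ℕ) (x : Fin n → V) (i : Fin n) :
    tr k x i = if (i : ℕ) ≤ k then x i else 0 := rfl

theorem cover_Nk {A : Finset (Fin n → V)} (hA : A.Nonempty) (hI : Inv A) {k : ℕ} (hk : k < n)
    (N : AddSubgroup V) {ε : ℝ}
    (h : hh (uw A) (fun ω : A => (ω : Fin n → V)) (Ek n k N) + Real.log (Nat.card N) ≤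
      hh (uw A) (fun ω : A => (ω : Fin n → V)) (Mk n V (k + 1)) + ε) :
    ∃ F ⊆ Nk n k N, (F.card : ℝ) ≤ Real.exp ((k + 1) * ε) ∧
      Nk n k N ⊆ F + (A.image (tr k) - A.image (tr k)) := by
  have h1 := hh_Pj hA hI hk N h (k + 1) (le_refl _)
  obtain ⟨a₀, ha₀, h2⟩ := dense_fibre hA (Mk n V (k + 1)) (Pj n (k + 1) k N)
  set D := (fib A (Pj n (k + 1) k N) a₀).image (tr k) with hD
  have hcardD : ((fib A (Pj n (k + 1) k N) a₀).image
      (fun x => (QuotientAddGroup.mk x : (Fin n → V) ⧸ Mk n V (k + 1)))).card ≤ D.card := by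
    rw [hD]
    -- the class is a function of the truncation
    have h3 : (fib A (Pj n (k + 1) k N) a₀).image
        (fun x => (QuotientAddGroup.mk x : (Fin n → V) ⧸ Mk n V (k + 1))) =
        ((fib A (Pj n (k + 1) k N) a₀).image (tr k)).image
          (fun x => (QuotientAddGroup.mk x : (Fin n → V) ⧸ Mk n V (k + 1))) := by
      rw [Finset.image_image]
      refine Finset.image_congr fun x _ => ?_
      simp only [Function.comp]
      rw [QuotientAddGroup.eq, mem_Mk]
      intro i hi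
      rw [Pi.add_apply, Pi.neg_apply, tr_apply, if_pos (by omega), neg_add_cancel]
    rw [h3]
    exact Finset.card_image_le
  have hDA : D ⊆ A.image (tr k) := Finset.image_subset_image (Finset.filter_subset _ _)
  have hDne : D.Nonempty := (Finset.card_pos.1 (fib_pos ha₀)).image _
  have hNpos : (0 : ℝ) < Nat.card N := by exact_mod_cast Nat.card_pos
  have hcov : ((Nk n k N + D).card : ℝ) ≤ Real.exp ((k + 1) * ε) * D.card := by
    have h3 : Nk n k N + D ⊆ (Nk n k N).image (fun x => tr k a₀ + x) := by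
      intro z hz
      obtain ⟨u, hu, d, hd, rfl⟩ := Finset.mem_add.1 hz
      obtain ⟨a, ha, rfl⟩ := Finset.mem_image.1 hd
      refine Finset.mem_image.2 ⟨u + (tr k a - tr k a₀), ?_, by abel⟩
      rw [mem_Nk] at hu ⊢
      intro i
      have h4 := (mem_fib.1 ha).2
      rw [mem_Pj] at h4
      have h5 := h4 i
      rw [Pi.add_apply, Pi.sub_apply, tr_apply, tr_apply]
      by_cases hi : (i : ℕ) ≤ k
      · rw [if_pos hi, if_pos hi]
        refine ⟨N.add_mem (hu i).1 ?_, fun h => absurd h (by omega)⟩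
        have h6 := h5.1 (by omega)
        rw [Pi.add_apply, Pi.neg_apply] at h6
        have e : a i - a₀ i = -a₀ i + a i := by abel
        rw [e]
        exact h6
      · rw [if_neg hi, if_neg hi, sub_self, add_zero]
        exact hu i
    have h4 : ((Nk n k N + D).card : ℝ) ≤ (Nat.card N : ℝ) ^ (k + 1) := by
      have h5 := (Finset.card_le_card h3).trans (Finset.card_image_le.trans (card_Nk_le hk N))
      exact_mod_cast h5
    have h5 : (Nat.card N : ℝ) ^ (k + 1) ≤ Real.exp ((k + 1) * ε) * D.card := by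
      have h6 : (Nat.card N : ℝ) ^ (k + 1) = Real.exp ((k + 1) * Real.log (Nat.card N)) := by
        rw [show ((k : ℝ) + 1) = ((k + 1 : ℕ) : ℝ) by push_cast; ring, ← Real.log_pow,
          Real.exp_log (by positivity)]
      rw [h6]
      have h7 : Real.exp ((k + 1) * Real.log (Nat.card N)) ≤ Real.exp ((k + 1) * ε) *
          Real.exp (hh (uw A) (fun ω : A => (ω : Fin n → V)) (Mk n V (k + 1)) -
            hh (uw A) (fun ω : A => (ω : Fin n → V)) (Pj n (k + 1) k N)) := by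
        rw [← Real.exp_add, Real.exp_le_exp]
        push_cast at h1
        linarith
      refine h7.trans (mul_le_mul_of_nonneg_left (h2.trans ?_) (Real.exp_pos _).le)
      exact_mod_cast hcardD
    exact h4.trans h5
  obtain ⟨F, hF1, hF2, hF3⟩ := Finset.ruzsa_covering_add hDne hcov
  exact ⟨F, hF1, hF2, hF3.trans (Finset.add_subset_add_left (Finset.sub_subset_sub hDA hDA))⟩

/-- sum zero vectors with entries in `N` supported on the coordinates up to `k` -/
noncomputable def Zk (n k : ℕ) (N : AddSubgroup V) : Finset (Fin n → V) :=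
  Finset.univ.filter (fun x => (∀ i : Fin n, x i ∈ N ∧ (k < (i : ℕ) → x i = 0)) ∧ ∑ i, x i = 0)

theorem mem_Zk {k : ℕ} {N : AddSubgroup V} {x : Fin n → V} :
    x ∈ Zk n k N ↔ (∀ i : Fin n, x i ∈ N ∧ (k < (i : ℕ) → x i = 0)) ∧ ∑ i, x i = 0 := by
  unfold Zk
  rw [Finset.mem_filter]
  exact ⟨fun h => h.2, fun h => ⟨Finset.mem_univ _, h⟩⟩

/-- partial sums -/
noncomputable def ps (s : Fin n → V) (m : ℕ) : V := ∑ j : Fin n, if (j : ℕ) < m then s j else 0

theorem ps_zero (s : Fin n → V) : ps s 0 = 0 := by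
  unfold ps
  simp

theorem ps_succ (s : Fin n → V) (i : Fin n) : ps s ((i : ℕ) + 1) = ps s i + s i := by
  unfold ps
  have h1 : ∀ j : Fin n, (if (j : ℕ) < (i : ℕ) + 1 then s j else 0) =
      (if (j : ℕ) < (i : ℕ) then s j else 0) + (if j = i then s j else 0) := by
    intro j
    by_cases h : j = i
    · rw [h]
      simp
    · have h2 : (j : ℕ) ≠ i := fun h' => h (Fin.ext h')
      by_cases h3 : (j : ℕ) < i
      · simp [h3, h, show (j : ℕ) < (i : ℕ) + 1 by omega]
      · simp [h3, h, show ¬ (j : ℕ) < (i : ℕ) + 1 by omega]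
  rw [Finset.sum_congr rfl fun j _ => h1 j, Finset.sum_add_distrib]
  congr 1
  simp

theorem ps_all (s : Fin n → V) (k : ℕ) (hs : ∀ i : Fin n, k < (i : ℕ) → s i = 0) :
    ps s (k + 1) = ∑ i, s i := by
  unfold ps
  refine Finset.sum_congr rfl fun i _ => ?_
  by_cases h : (i : ℕ) < k + 1
  · rw [if_pos h]
  · rw [if_neg h, hs i (by omega)]

theorem ps_mem {N : AddSubgroup V} {s : Fin n → V} (hs : ∀ i, s i ∈ N) (m : ℕ) : ps s m ∈ N := by
  unfold ps
  refine AddSubgroup.sum_mem _ fun i _ => ?_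
  split_ifs
  exacts [hs i, N.zero_mem]

theorem exists_shift {k : ℕ} (hk : k < n) {N : AddSubgroup V} {s : Fin n → V}
    (hs : s ∈ Zk n k N) :
    ∃ u ∈ Nk n k N, s = fun i => u i - u (Fin.cycleRange ⟨k, hk⟩ i) := by
  rw [mem_Zk] at hs
  obtain ⟨h1, h2⟩ := hs
  have hn : NeZero n := ⟨by omega⟩
  refine ⟨fun i => if (i : ℕ) ≤ k then -ps s i else 0, ?_, ?_⟩
  · rw [mem_Nk]
    intro i
    by_cases h : (i : ℕ) ≤ k
    · simp only [if_pos h]
      exact ⟨N.neg_mem (ps_mem (fun i => (h1 i).1) _), fun h' => absurd h' (by omega)⟩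
    · simp only [if_neg h]
      exact ⟨N.zero_mem, fun _ => trivial⟩
  · funext i
    beta_reduce
    rcases lt_trichotomy (i : ℕ) k with h | h | h
    · have h3 : ((Fin.cycleRange ⟨k, hk⟩ i : Fin n) : ℕ) = i + 1 :=
        Fin.coe_cycleRange_of_lt (Fin.lt_def.2 h)
      rw [h3, if_pos h.le, if_pos (by omega), ps_succ]
      abel
    · have h4 : i = ⟨k, hk⟩ := Fin.ext h
      have h3 : (Fin.cycleRange ⟨k, hk⟩ i : Fin n) = 0 := by
        rw [h4]
        exact Fin.cycleRange_self _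
      rw [h3, if_pos h.le, if_pos (by simp), Fin.val_zero, ps_zero]
      have h5 := ps_succ s i
      rw [h, ps_all s k (fun i => (h1 i).2), h2] at h5
      rw [h]
      have h6 : s i = -ps s k := by
        rw [eq_neg_iff_add_eq_zero, add_comm]
        exact h5.symm
      rw [h6]
      abel
    · have h3 : (Fin.cycleRange ⟨k, hk⟩ i : Fin n) = i := Fin.cycleRange_of_gt (Fin.lt_def.2 h)
      rw [h3, sub_self]
      exact (h1 i).2 h

theorem tr_shift {k : ℕ} (hk : k < n) (a : Fin n → V) (i : Fin n) :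
    tr k a i - tr k a (Fin.cycleRange ⟨k, hk⟩ i) = a i - a (Fin.cycleRange ⟨k, hk⟩ i) := by
  rw [tr_apply, tr_apply]
  by_cases h : (i : ℕ) ≤ k
  · have h2 : ((Fin.cycleRange ⟨k, hk⟩ i : Fin n) : ℕ) ≤ k := by
      rw [Fin.coe_cycleRange_of_le (Fin.le_def.2 h)]
      split_ifs with h3
      · omega
      · have : (i : ℕ) ≠ k := fun h4 => h3 (Fin.ext h4)
        omega
    rw [if_pos h, if_pos h2]
  · have h3 : (Fin.cycleRange ⟨k, hk⟩ i : Fin n) = i :=
      Fin.cycleRange_of_gt (Fin.lt_def.2 (by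
        change k < (i : ℕ)
        omega))
    rw [h3, if_neg h, sub_self, sub_self]

theorem cover_Zk {A : Finset (Fin n → V)} (hI : Inv A) {k : ℕ} (hk : k < n)
    {N : AddSubgroup V} {F : Finset (Fin n → V)}
    (hF : Nk n k N ⊆ F + (A.image (tr k) - A.image (tr k))) :
    ∃ F' : Finset (Fin n → V), F'.card ≤ F.card ∧ Zk n k N ⊆ F' + ((A - A) - (A - A)) := by
  refine ⟨F.image (fun t i => t i - t (Fin.cycleRange ⟨k, hk⟩ i)), Finset.card_image_le, ?_⟩
  intro s hs
  obtain ⟨u, hu, rfl⟩ := exists_shift hk hs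
  obtain ⟨t, ht, d, hd, rfl⟩ := Finset.mem_add.1 (hF hu)
  obtain ⟨d1, hd1, d2, hd2, rfl⟩ := Finset.mem_sub.1 hd
  obtain ⟨a, ha, rfl⟩ := Finset.mem_image.1 hd1
  obtain ⟨b, hb, rfl⟩ := Finset.mem_image.1 hd2
  refine Finset.mem_add.2 ⟨_, Finset.mem_image_of_mem _ ht,
    (a - fun i => a (Fin.cycleRange ⟨k, hk⟩ i)) - (b - fun i => b (Fin.cycleRange ⟨k, hk⟩ i)),
    Finset.sub_mem_sub (Finset.sub_mem_sub ha (hI _ a ha)) (Finset.sub_mem_sub hb (hI _ b hb)), ?_⟩
  funext i
  have h1 := tr_shift hk a i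
  have h2 := tr_shift hk b i
  simp only [Pi.add_apply, Pi.sub_apply]
  rw [← h1, ← h2]
  abel

/-- sum zero vectors with entries in `N` -/
noncomputable def N0 (n : ℕ) (N : AddSubgroup V) : Finset (Fin n → V) :=
  Finset.univ.filter (fun x => (∀ i : Fin n, x i ∈ N) ∧ ∑ i, x i = 0)

theorem mem_N0 {N : AddSubgroup V} {x : Fin n → V} :
    x ∈ N0 n N ↔ (∀ i : Fin n, x i ∈ N) ∧ ∑ i, x i = 0 := by
  unfold N0
  rw [Finset.mem_filter]
  exact ⟨fun h => h.2, fun h => ⟨Finset.mem_univ _, h⟩⟩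

theorem N0_sub {k : ℕ} (hk : k < n) (hk2 : n ≤ 2 * k) (N : AddSubgroup V) :
    N0 n N ⊆ Zk n k N + (Zk n k N).image (fun x i => x (Fin.rev i)) := by
  intro s hs
  obtain ⟨h1, h2⟩ := mem_N0.1 hs
  set s1 : Fin n → V := fun i => if (i : ℕ) < k then s i else if (i : ℕ) = k then -ps s k else 0
    with hs1
  have hsum : ∑ i, s1 i = 0 := by
    have h3 : ∀ i : Fin n, s1 i = (if (i : ℕ) < k then s i else 0) +
        (if i = ⟨k, hk⟩ then -ps s k else 0) := by
      intro i
      simp only [hs1]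
      by_cases h : (i : ℕ) < k
      · have h' : i ≠ ⟨k, hk⟩ := fun h' => by
          rw [h'] at h
          exact lt_irrefl _ h
        rw [if_pos h, if_pos h, if_neg h', add_zero]
      · by_cases h' : (i : ℕ) = k
        · have h'' : i = ⟨k, hk⟩ := Fin.ext h'
          rw [if_neg h, if_neg h, if_pos h', if_pos h'', zero_add]
        · have h'' : i ≠ ⟨k, hk⟩ := fun h'' => h' (congrArg Fin.val h'')
          rw [if_neg h, if_neg h, if_neg h', if_neg h'', zero_add]
    rw [Finset.sum_congr rfl fun i _ => h3 i, Finset.sum_add_distrib, Finset.sum_ite_eq',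
      if_pos (Finset.mem_univ _)]
    exact add_neg_cancel _
  have hmem : ∀ i, s1 i ∈ N := by
    intro i
    simp only [hs1]
    split_ifs
    exacts [h1 i, N.neg_mem (ps_mem h1 k), N.zero_mem]
  have hz : ∀ i : Fin n, k < (i : ℕ) → s1 i = 0 := by
    intro i hi
    simp only [hs1]
    rw [if_neg (by omega), if_neg (by omega)]
  refine Finset.mem_add.2 ⟨s1, mem_Zk.2 ⟨fun i => ⟨hmem i, hz i⟩, hsum⟩, s - s1, ?_, by abel⟩
  refine Finset.mem_image.2 ⟨fun i => (s - s1) (Fin.rev i), mem_Zk.2 ⟨fun i => ⟨?_, fun hi => ?_⟩,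
    ?_⟩, ?_⟩
  · rw [Pi.sub_apply]
    exact N.sub_mem (h1 _) (hmem _)
  · have h3 : ((Fin.rev i : Fin n) : ℕ) < k := by
      rw [Fin.val_rev]
      omega
    rw [Pi.sub_apply]
    simp only [hs1]
    rw [if_pos h3, sub_self]
  · have h3 : ∑ i, (s - s1) (Fin.rev i) = ∑ i, (s - s1) i :=
      Equiv.sum_comp Fin.revPerm (fun i => (s - s1) i)
    rw [h3]
    simp only [Pi.sub_apply]
    rw [Finset.sum_sub_distrib, h2, hsum, sub_zero]
  · funext i
    simp only [Fin.rev_rev]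

/-- **Almost periods.** -/
theorem card_add_N0 {A : Finset (Fin n → V)} (hA : A.Nonempty) (hI : Inv A) {K : ℝ}
    (hK1 : 1 ≤ K) (hK : ((A + A).card : ℝ) ≤ K * A.card) {k : ℕ} (hk : k < n)
    (hk2 : n ≤ 2 * k) (N : AddSubgroup V) {ε : ℝ}
    (h : hh (uw A) (fun ω : A => (ω : Fin n → V)) (Ek n k N) + Real.log (Nat.card N) ≤
      hh (uw A) (fun ω : A => (ω : Fin n → V)) (Mk n V (k + 1)) + ε) :
    ((A + N0 n N).card : ℝ) ≤ Real.exp ((k + 1) * ε) ^ 2 * K ^ 9 * A.card := by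
  obtain ⟨F, hF1, hF2, hF3⟩ := cover_Nk hA hI hk N h
  obtain ⟨F', hF', hZ⟩ := cover_Zk hI hk hF3
  set F'' := F'.image (fun (x : Fin n → V) i => x (Fin.rev i)) with hF''
  have hZ2 : (Zk n k N).image (fun x i => x (Fin.rev i)) ⊆ F'' + ((A - A) - (A - A)) := by
    intro z hz
    obtain ⟨s, hs, rfl⟩ := Finset.mem_image.1 hz
    obtain ⟨t, ht, d, hd, rfl⟩ := Finset.mem_add.1 (hZ hs)
    refine Finset.mem_add.2 ⟨_, Finset.mem_image_of_mem _ ht, fun i => d (Fin.rev i), ?_, ?_⟩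
    · obtain ⟨d1, hd1, d2, hd2, rfl⟩ := Finset.mem_sub.1 hd
      obtain ⟨a, ha, b, hb, rfl⟩ := Finset.mem_sub.1 hd1
      obtain ⟨c, hc, e, he, rfl⟩ := Finset.mem_sub.1 hd2
      refine Finset.mem_sub.2 ⟨_, Finset.sub_mem_sub (hI Fin.revPerm a ha)
        (hI Fin.revPerm b hb), _, Finset.sub_mem_sub (hI Fin.revPerm c hc)
        (hI Fin.revPerm e he), ?_⟩
      funext i
      simp only [Pi.sub_apply, Fin.revPerm_apply]
    · funext i
      simp only [Pi.add_apply]
  have hsub : A + N0 n N ⊆ (F' + F'') + (5 • A - 4 • A) := by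
    intro z hz
    obtain ⟨a, ha, s, hs, rfl⟩ := Finset.mem_add.1 hz
    obtain ⟨s1, hs1, s2, hs2, rfl⟩ := Finset.mem_add.1 (N0_sub hk hk2 N hs)
    obtain ⟨t1, ht1, d1, hd1, rfl⟩ := Finset.mem_add.1 (hZ hs1)
    obtain ⟨t2, ht2, d2, hd2, rfl⟩ := Finset.mem_add.1 (hZ2 hs2)
    refine Finset.mem_add.2 ⟨t1 + t2, Finset.add_mem_add ht1 ht2, a + (d1 + d2),
      mem_nine ha hd1 hd2, by abel⟩
  have h1 : ((A + N0 n N).card : ℝ) ≤ ((F'.card * F''.card : ℕ) : ℝ) * (5 • A - 4 • A).card := by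
    have h2 := (Finset.card_le_card hsub).trans (Finset.card_add_le)
    have h3 := Finset.card_add_le (s := F') (t := F'')
    have h4 := h2.trans (Nat.mul_le_mul_right _ h3)
    exact_mod_cast h4
  have h2 := iter_le hA hK 5 4
  have h3 : ((F'.card * F''.card : ℕ) : ℝ) ≤ Real.exp ((k + 1) * ε) ^ 2 := by
    have h4 : (F'.card : ℝ) ≤ Real.exp ((k + 1) * ε) := by
      have : (F'.card : ℝ) ≤ F.card := by exact_mod_cast hF'
      exact this.trans hF2
    have h5 : (F''.card : ℝ) ≤ Real.exp ((k + 1) * ε) := by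
      have : (F''.card : ℝ) ≤ F'.card := by exact_mod_cast Finset.card_image_le
      exact this.trans h4
    push_cast
    rw [pow_two]
    exact mul_le_mul h4 h5 (by positivity) (Real.exp_pos _).le
  calc ((A + N0 n N).card : ℝ) ≤ _ := h1
    _ ≤ Real.exp ((k + 1) * ε) ^ 2 * (K ^ (5 + 4) * A.card) :=
        mul_le_mul h3 h2 (by positivity) (by positivity)
    _ = _ := by ring

end Pool.Agent.T9h99.Sym
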