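import Pool.Agent.N149.Tow.Fl
set_option autoImplicit false

/-! Entropies of symmetric sets of vectors. -/

open scoped Classical Pointwise
set_option linter.unusedSectionVars false
set_option linter.unusedVariables false

namespace Pool.Agent.T9h99.Sym

open H137.PFR H137.TwoPow H137.Weak

/-- a bijection of the sample space preserving the weights preserves entropies -/
theorem Hg_equiv {Ω α : Type*} [Fintype Ω] {w : Ω → ℝ} (X : Ω → α) (e : Ω ≃ Ω)
    (he : ∀ ω, w (e ω) = w ω) : Hg w (fun ω => X (e ω)) = Hg w X := by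
  have h1 : ∀ a, push w (fun ω => X (e ω)) a = push w X a := by
    intro a
    unfold push
    rw [← Equiv.sum_comp e (fun ω => if X ω = a then w ω else 0)]
    exact Finset.sum_congr rfl fun ω _ => by rw [he]
  unfold Hg
  rw [← Equiv.sum_comp e (fun ω => w ω * (-Real.log (push w X (X ω))))]
  exact Finset.sum_congr rfl fun ω _ => by rw [he, h1]

variable {n : ℕ} {V : Type*} [AddCommGroup V]

/-- invariance under all permutations of the coordinates -/
def Inv (A : Finset (Fin n → V)) : Prop :=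
  ∀ σ : Equiv.Perm (Fin n), ∀ a ∈ A, (fun i => a (σ i)) ∈ A

/-- vectors whose coordinate `i` lies in `L i` -/
def box (L : Fin n → AddSubgroup V) : AddSubgroup (Fin n → V) where
  carrier := {x | ∀ i, x i ∈ L i}
  zero_mem' := fun i => (L i).zero_mem
  add_mem' := fun hx hy i => (L i).add_mem (hx i) (hy i)
  neg_mem' := fun hx i => (L i).neg_mem (hx i)

theorem mem_box {L : Fin n → AddSubgroup V} {x : Fin n → V} : x ∈ box L ↔ ∀ i, x i ∈ L i :=
  Iff.rfl

theorem box_mono {L L' : Fin n → AddSubgroup V} (h : ∀ i, L i ≤ L' i) : box L ≤ box L' :=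
  fun _ hx i => h i (hx i)

theorem box_inf (L L' : Fin n → AddSubgroup V) : box L ⊓ box L' = box (fun i => L i ⊓ L' i) := by
  ext x
  rw [AddSubgroup.mem_inf, mem_box, mem_box, mem_box]
  exact ⟨fun h i => ⟨h.1 i, h.2 i⟩, fun h => ⟨fun i => (h i).1, fun i => (h i).2⟩⟩

theorem box_sup (L L' : Fin n → AddSubgroup V) : box L ⊔ box L' = box (fun i => L i ⊔ L' i) := by
  apply le_antisymm
  · exact sup_le (box_mono fun i => le_sup_left) (box_mono fun i => le_sup_right)
  · intro x hx
    rw [mem_box] at hx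
    have h1 : ∀ i, ∃ y ∈ L i, ∃ z ∈ L' i, y + z = x i := fun i => AddSubgroup.mem_sup.1 (hx i)
    choose y hy z hz hyz using h1
    exact AddSubgroup.mem_sup.2 ⟨y, hy, z, hz, funext hyz⟩

/-- the permutation of a symmetric set -/
def permEquiv {A : Finset (Fin n → V)} (hA : Inv A) (σ : Equiv.Perm (Fin n)) : A ≃ A where
  toFun a := ⟨fun i => a.1 (σ i), hA σ _ a.2⟩
  invFun a := ⟨fun i => a.1 (σ.symm i), hA σ.symm _ a.2⟩
  left_inv a := by
    apply Subtype.ext
    funext i
    simp
  right_inv a := by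
    apply Subtype.ext
    funext i
    simp

/-- exchangeability -/
theorem hh_perm {A : Finset (Fin n → V)} (hA : Inv A) (σ : Equiv.Perm (Fin n))
    (L : Fin n → AddSubgroup V) :
    hh (uw A) (fun ω : A => (ω : Fin n → V)) (box (fun i => L (σ i))) =
      hh (uw A) (fun ω : A => (ω : Fin n → V)) (box L) := by
  unfold hh
  rw [← Hg_equiv (w := uw A) (fun ω : A => ((ω : Fin n → V) : (Fin n → V) ⧸ box L))
    (permEquiv hA σ.symm) (fun _ => rfl)]
  refine Hg_congr fun ω ω' => ?_
  rw [QuotientAddGroup.eq, QuotientAddGroup.eq, mem_box, mem_box]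
  constructor
  · intro h i
    have := h (σ.symm i)
    rw [Equiv.apply_symm_apply] at this
    exact this
  · intro h i
    have := h (σ i)
    have h2 : ∀ a : A, ((permEquiv hA σ.symm a : A) : Fin n → V) (σ i) = a.1 i := by
      intro a
      change a.1 (σ.symm (σ i)) = _
      rw [Equiv.symm_apply_apply]
    have h3 : (-((permEquiv hA σ.symm ω : A) : Fin n → V) + (permEquiv hA σ.symm ω' : A)) (σ i) =
        (-(ω : Fin n → V) + ω') i := by
      rw [Pi.add_apply, Pi.add_apply, Pi.neg_apply, Pi.neg_apply, h2, h2]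
    rw [h3] at this
    exact this

/-! ### a coset with many values -/

/-- position in a finite set -/
noncomputable def idx {α : Type*} (S : Finset α) (x : α) : ℕ :=
  if h : x ∈ S then (S.equivFin ⟨x, h⟩).1 else 0

theorem idx_lt {α : Type*} {S : Finset α} {x : α} (h : x ∈ S) : idx S x < S.card := by
  unfold idx
  rw [dif_pos h]
  exact (S.equivFin ⟨x, h⟩).2

theorem idx_inj {α : Type*} {S : Finset α} {x y : α} (hx : x ∈ S) (hy : y ∈ S)
    (h : idx S x = idx S y) : x = y := by
  unfold idx at h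
  rw [dif_pos hx, dif_pos hy] at h
  have h1 := S.equivFin.injective (Fin.ext h)
  exact congrArg Subtype.val h1

theorem dense_fibre {Γ : Type*} [AddCommGroup Γ] {A : Finset Γ} (hA : A.Nonempty)
    (M P : AddSubgroup Γ) :
    ∃ a₀ ∈ A, Real.exp (hh (uw A) (fun ω : A => (ω : Γ)) M - hh (uw A) (fun ω : A => (ω : Γ)) P) ≤
      (((fib A P a₀).image (fun x : Γ => (QuotientAddGroup.mk x : Γ ⧸ M))).card : ℝ) := by
  obtain ⟨a₀, ha₀, hmax⟩ := Finset.exists_max_image A
    (fun a => ((fib A P a).image (fun x : Γ => (QuotientAddGroup.mk x : Γ ⧸ M))).card) hA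
  refine ⟨a₀, ha₀, ?_⟩
  set B := ((fib A P a₀).image (fun x : Γ => (QuotientAddGroup.mk x : Γ ⧸ M))).card with hB
  have hBpos : 0 < B := by
    rw [hB, Finset.card_pos]
    exact (Finset.card_pos.1 (fib_pos ha₀)).image _
  have hw := law_uw hA
  set W : A → ℕ := fun ω => idx ((fib A P (ω : Γ)).image (fun x : Γ => (QuotientAddGroup.mk x : Γ ⧸ M)))
    (QuotientAddGroup.mk (ω : Γ) : Γ ⧸ M) with hW
  have hmem : ∀ ω : A, (QuotientAddGroup.mk (ω : Γ) : Γ ⧸ M) ∈ (fib A P (ω : Γ)).image (fun x : Γ => (QuotientAddGroup.mk x : Γ ⧸ M)) := by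
    intro ω
    refine Finset.mem_image.2 ⟨ω, mem_fib.2 ⟨ω.2, ?_⟩, rfl⟩
    rw [neg_add_cancel]
    exact P.zero_mem
  have h1 : hh (uw A) (fun ω : A => (ω : Γ)) M ≤ hh (uw A) (fun ω : A => (ω : Γ)) P +
      Hg (uw A) W := by
    refine Hg_add_of hw fun ω ω' h h' => ?_
    rw [QuotientAddGroup.eq] at h
    have hf : fib A P (ω : Γ) = fib A P (ω' : Γ) := by
      ext x
      rw [mem_fib, mem_fib]
      refine and_congr_right fun _ => ?_
      constructor
      · intro hx
        have e : -(ω' : Γ) + x = -(-(ω : Γ) + ω') + (-(ω : Γ) + x) := by abel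
        rw [e]
        exact P.add_mem (P.neg_mem h) hx
      · intro hx
        have e : -(ω : Γ) + x = (-(ω : Γ) + ω') + (-(ω' : Γ) + x) := by abel
        rw [e]
        exact P.add_mem h hx
    have h2 := hmem ω'
    rw [← hf] at h2
    have h3 : idx ((fib A P (ω : Γ)).image (fun x : Γ => (QuotientAddGroup.mk x : Γ ⧸ M))) (QuotientAddGroup.mk (ω : Γ) : Γ ⧸ M) =
        idx ((fib A P (ω' : Γ)).image (fun x : Γ => (QuotientAddGroup.mk x : Γ ⧸ M))) (QuotientAddGroup.mk (ω' : Γ) : Γ ⧸ M) := h'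
    rw [← hf] at h3
    exact idx_inj (hmem ω) h2 h3
  have h2 : Hg (uw A) W ≤ Real.log B := by
    have h3 := Hg_le_log_card hw W (Finset.range B) (fun ω => by
      rw [Finset.mem_range]
      exact lt_of_lt_of_le (idx_lt (hmem ω)) (hmax _ ω.2))
    rwa [Finset.card_range] at h3
  have hB' : (0 : ℝ) < B := by exact_mod_cast hBpos
  rw [← Real.le_log_iff_exp_le hB']
  linarith

end Pool.Agent.T9h99.Sym
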