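import Pool.Agent.T9h99.Sym.Count
set_option autoImplicit false

/-! Symmetric sets of vectors over a finite abelian group. -/

open scoped Classical Pointwise
set_option linter.unusedSectionVars false
set_option linter.unusedVariables false

namespace Pool.Agent.T9h99.Sym

open H137.PFR H137.TwoPow H137.Weak

variable {n : ℕ} {V : Type*} [AddCommGroup V] [Fintype V]

/-- the size of a sumset does not depend on the choice of the decidability instance -/
theorem add_card_inst {Γ : Type*} [Add Γ] (d1 d2 : DecidableEq Γ) (A B : Finset Γ) :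
    (@HAdd.hAdd (Finset Γ) (Finset Γ) (Finset Γ) (@instHAdd _ (@Finset.add Γ d1 _)) A B).card =
      (@HAdd.hAdd (Finset Γ) (Finset Γ) (Finset Γ) (@instHAdd _ (@Finset.add Γ d2 _)) A B).card := by
  rw [Subsingleton.elim d1 d2]

theorem exp_mul_log {K : ℝ} (hK : 0 < K) (m : ℕ) : Real.exp (m * Real.log K) = K ^ m := by
  rw [← Real.log_pow, Real.exp_log (by positivity)]

theorem sym_fin {A : Finset (Fin n → V)} (hA : A.Nonempty) (hI : Inv A) {K : ℝ} (hK1 : 1 ≤ K)
    (hK : ((A + A).card : ℝ) ≤ K * A.card) (hn : 700000000 * Real.log (2 * K) ≤ n) :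
    ∃ N : AddSubgroup V, ((A + N0 n N).card : ℝ) ≤ K ^ 6985 * A.card ∧
      ∃ T : Finset (Fin n → V), (T.card : ℝ) ≤ 8 * K ^ 223239 ∧
        ∀ a ∈ A, ∃ s ∈ T, ∀ i j, (a i - s i) - (a j - s j) ∈ N := by
  have hK0 : 0 < K := by linarith
  set L := Real.log K with hL
  have hL0 : 0 ≤ L := Real.log_nonneg hK1
  have hlog : Real.log (2 * K) = Real.log 2 + L := by
    rw [Real.log_mul (by norm_num) hK0.ne']
  have hlog2 := Real.log_two_gt_d9
  rw [hlog] at hn
  have hn1 : 640000000 * L + 8 ≤ n := by linarith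
  have hn8 : 8 ≤ n := by
    have : (8 : ℝ) ≤ n := by linarith
    exact_mod_cast this
  have hn0 : (0 : ℝ) < n := by linarith
  have hw := law_uw hA
  set X : A → Fin n → V := fun ω => (ω : Fin n → V) with hX
  have hkap : kap (uw A) X ≤ 2 * L := kap_uw hA hK1
    (le_of_eq_of_le ((Nat.cast_inj (R := ℝ)).2 (add_card_inst _ _ A A)) hK)
  obtain ⟨k, hk1, hk2, hk3⟩ := exists_k (fun k => kk (uw A) X (Mk n V k))
    (fun i => kk_anti hw X (Mk_anti (Nat.le_succ i))) (L := L) (kk_nonneg hw X _)
    (fun i => (kk_le hw X _).trans hkap) hn8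
  set δ := kk (uw A) X (Mk n V (k + 1)) - kk (uw A) X (Mk n V k) with hδ
  have hδn : δ * n ≤ 16 * L := by
    rwa [le_div_iff₀ hn0] at hk3
  have hδ0 : 0 ≤ δ := by
    have := kk_anti hw X (Mk_anti (n := n) (V := V) (Nat.le_succ k))
    rw [hδ]
    exact sub_nonneg.2 this
  have hsmall : δ ≤ 1 / 40000000 := by
    refine hk3.trans ?_
    rw [div_le_iff₀ hn0]
    linarith
  obtain ⟨N, hN1, hN2⟩ := stage_k hw X (show k < n by omega) hsmall
  rw [← hδ] at hN1 hN2
  refine ⟨N, ?_, ?_⟩
  · have h1 := card_add_N0 hA hI hK1 hK (show k < n by omega) hk1 N hN1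
    refine h1.trans (mul_le_mul_of_nonneg_right ?_ (Nat.cast_nonneg _))
    have h2 : Real.exp ((k + 1) * (218 * δ)) ≤ K ^ 3488 := by
      rw [← exp_mul_log hK0, Real.exp_le_exp]
      have h3 : ((k : ℝ) + 1) ≤ n := by
        have : k + 1 ≤ n := by omega
        exact_mod_cast this
      have h4 : ((k : ℝ) + 1) * (218 * δ) ≤ n * (218 * δ) :=
        mul_le_mul_of_nonneg_right h3 (by positivity)
      have h5 : (n : ℝ) * (218 * δ) = 218 * (δ * n) := by ring
      rw [h5] at h4
      push_cast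
      linarith
    calc Real.exp ((k + 1) * (218 * δ)) ^ 2 * K ^ 9 ≤ (K ^ 3488) ^ 2 * K ^ 9 :=
          mul_le_mul_of_nonneg_right (pow_le_pow_left₀ (Real.exp_pos _).le h2 2) (by positivity)
      _ = K ^ 6985 := by rw [← pow_mul, ← pow_add]
  · set t := ⌊4 * (218 * δ) * n⌋₊ with ht
    have ht1 : 4 * (218 * δ) * n ≤ t + 1 := (Nat.lt_floor_add_one _).le
    have ht2 : (t : ℝ) ≤ 13952 * L := by
      have h3 : (t : ℝ) ≤ 4 * (218 * δ) * n := Nat.floor_le (by positivity)
      have h4 : 4 * (218 * δ) * n = 872 * (δ * n) := by ring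
      rw [h4] at h3
      linarith
    have ht3 : 8 * t ≤ n := by
      have : (8 : ℝ) * t ≤ n := by linarith
      exact_mod_cast this
    have h1 := sparse_half hA hI (show k + 1 < n by omega) N hN2 t ht1
    set B := A.filter (fun a => ∃ j, dif N a j ≤ t) with hB
    have hBI : Inv B := by
      intro σ a ha
      obtain ⟨ha, j, hj⟩ := Finset.mem_filter.1 ha
      refine Finset.mem_filter.2 ⟨hI σ a ha, σ.symm j, ?_⟩
      refine le_trans (le_of_eq ?_) hj
      unfold dif
      refine Finset.card_bij (fun i _ => σ i) ?_ ?_ ?_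
      · intro i hi
        refine Finset.mem_filter.2 ⟨Finset.mem_univ _, ?_⟩
        have h2 := (Finset.mem_filter.1 hi).2
        beta_reduce at h2
        rw [Equiv.apply_symm_apply] at h2
        exact h2
      · intro i _ i' _ h
        exact σ.injective h
      · intro i hi
        refine ⟨σ.symm i, Finset.mem_filter.2 ⟨Finset.mem_univ _, ?_⟩, Equiv.apply_symm_apply σ i⟩
        beta_reduce
        rw [Equiv.apply_symm_apply, Equiv.apply_symm_apply]
        exact (Finset.mem_filter.1 hi).2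
    obtain ⟨T, hT1, hT2⟩ := cover_diag hA (Finset.filter_subset _ _) hBI h1 hK1 hK N hn8 ht3
      (fun a ha => (Finset.mem_filter.1 ha).2)
    refine ⟨T, hT1.trans ?_, hT2⟩
    have h2 : Real.exp (16 * t) ≤ K ^ 223232 := by
      rw [← exp_mul_log hK0, Real.exp_le_exp]
      push_cast
      linarith
    have h3 : 8 * K ^ 7 * Real.exp (16 * t) ≤ 8 * K ^ 7 * K ^ 223232 :=
      mul_le_mul_of_nonneg_left h2 (by positivity)
    refine h3.trans (le_of_eq ?_)
    rw [mul_assoc, ← pow_add]

end Pool.Agent.T9h99.Sym
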