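import Pool.Agent.T9h99.Sym.Gen
import Pool.Agent.TH414.UD.Q1
set_option autoImplicit false

/-! Sets all of whose coordinate permutations are translates. -/

open scoped Classical Pointwise
set_option linter.unusedSectionVars false
set_option linter.unusedVariables false

namespace Pool.Agent.T9h99.Sym

open Pool.Agent.TH414.Dil

variable {n : ℕ} {M : Type*} [AddCommGroup M]

/-- the doubling constant is at least one -/
theorem one_le_of_dbl {Γ : Type*} [AddCommGroup Γ] [DecidableEq Γ] {A : Finset Γ}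
    (hA : A.Nonempty) {K : ℝ} (hK : ((A + A).card : ℝ) ≤ K * A.card) : 1 ≤ K := by
  have hpos : (0 : ℝ) < A.card := by exact_mod_cast hA.card_pos
  have h1 : (A.card : ℝ) ≤ (A + A).card := by exact_mod_cast Finset.card_le_card_add_right hA
  have h2 := h1.trans hK
  by_contra h3
  push Not at h3
  nlinarith

/-- **Sets with translated permutations.** -/
theorem sym_translates [DecidableEq (Fin n → M)] {A : Finset (Fin n → M)} (hA : A.Nonempty)
    (hsym : ∀ σ : Equiv.Perm (Fin n), ∃ v : Fin n → M, ∀ a ∈ A, (fun i => a (σ i) + v i) ∈ A)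
    {K : ℝ} (hK : ((A + A).card : ℝ) ≤ K * A.card)
    (hn : 2800000000 * Real.log (2 * K) ≤ n) :
    Concl A (K ^ 27942 * A.card) (8 * K ^ 892956) := by
  have hK1 := one_le_of_dbl hA hK
  have hK0 : 0 < K := by linarith
  obtain ⟨a₀, ha₀⟩ := hA
  have hA : A.Nonempty := ⟨a₀, ha₀⟩
  set D := A - A with hD
  have hDne : D.Nonempty := hA.sub hA
  have hDI : Inv D := by
    intro σ x hx
    obtain ⟨a, ha, b, hb, rfl⟩ := Finset.mem_sub.1 hx
    obtain ⟨v, hv⟩ := hsym σ
    refine Finset.mem_sub.2 ⟨_, hv a ha, _, hv b hb, ?_⟩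
    funext i
    simp only [Pi.sub_apply]
    abel
  have hAD : A.card ≤ D.card := by
    have h1 : A.image (fun a => a - a₀) ⊆ D := by
      intro x hx
      obtain ⟨a, ha, rfl⟩ := Finset.mem_image.1 hx
      exact Finset.sub_mem_sub ha ha₀
    have h2 := Finset.card_le_card h1
    rwa [Finset.card_image_of_injective _ (sub_left_injective (b := a₀))] at h2
  have hAD' : (A.card : ℝ) ≤ D.card := by exact_mod_cast hAD
  have hDD : ((D + D).card : ℝ) ≤ K ^ 4 * D.card := by
    have h1 : D + D = 2 • A - 2 • A := by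
      rw [hD, two_nsmul, sub_add_sub_comm]
    rw [h1]
    have h2 := iter_le hA hK 2 2
    exact h2.trans (mul_le_mul_of_nonneg_left hAD' (by positivity))
  have hDA : (D.card : ℝ) ≤ K ^ 2 * A.card := by
    have h1 : D = 1 • A - 1 • A := by rw [one_nsmul]
    rw [h1]
    exact iter_le hA hK 1 1
  have hn' : 700000000 * Real.log (2 * K ^ 4) ≤ n := by
    refine le_trans ?_ hn
    have h1 : Real.log (2 * K ^ 4) = Real.log 2 + 4 * Real.log K := by
      rw [Real.log_mul (by norm_num) (by positivity), Real.log_pow]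
      norm_num
    have h2 : Real.log (2 * K) = Real.log 2 + Real.log K := by
      rw [Real.log_mul (by norm_num) hK0.ne']
    rw [h1, h2]
    have h3 := Real.log_nonneg hK1
    have h4 := Real.log_pos (by norm_num : (1 : ℝ) < 2)
    linarith
  obtain ⟨N, hN, hN1, T, hT1, hT2⟩ := sym_gen hDne hDI (one_le_pow₀ hK1) hDD hn'
  refine ⟨N, hN, ?_, T.image (fun t => a₀ + t), ?_, ?_⟩
  · have h1 : (A : Set (Fin n → M)) + (zs n N : Set (Fin n → M)) ⊆
        (fun x => a₀ + x) '' ((D : Set (Fin n → M)) + (zs n N : Set (Fin n → M))) := by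
      intro x hx
      obtain ⟨a, ha, z, hz, rfl⟩ := Set.mem_add.1 hx
      refine ⟨(a - a₀) + z, Set.add_mem_add (Finset.mem_coe.2 (Finset.sub_mem_sub ha ha₀)) hz, ?_⟩
      change a₀ + (a - a₀ + z) = a + z
      abel
    have hfin : ((D : Set (Fin n → M)) + (zs n N : Set (Fin n → M))).Finite :=
      (Finset.finite_toSet D).add (zs_finite hN)
    have h2 := (Set.ncard_le_ncard h1 (hfin.image _)).trans (Set.ncard_image_le hfin)
    have h3 : ((((A : Set (Fin n → M)) + (zs n N : Set (Fin n → M))).ncard : ℕ) : ℝ) ≤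
        (((D : Set (Fin n → M)) + (zs n N : Set (Fin n → M))).ncard : ℕ) := by exact_mod_cast h2
    calc ((((A : Set (Fin n → M)) + (zs n N : Set (Fin n → M))).ncard : ℕ) : ℝ) ≤ _ := h3
      _ ≤ (K ^ 4) ^ 6985 * D.card := hN1
      _ ≤ (K ^ 4) ^ 6985 * (K ^ 2 * A.card) := mul_le_mul_of_nonneg_left hDA (by positivity)
      _ = K ^ 27942 * A.card := by
          rw [← pow_mul, ← mul_assoc, ← pow_add]
  · have h1 : ((T.image (fun t => a₀ + t)).card : ℝ) ≤ T.card := by
      exact_mod_cast Finset.card_image_le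
    refine h1.trans (hT1.trans (le_of_eq ?_))
    rw [← pow_mul]
  · intro a ha
    obtain ⟨s, hs, h1⟩ := hT2 (a - a₀) (Finset.sub_mem_sub ha ha₀)
    refine ⟨_, Finset.mem_image_of_mem _ hs, fun i j => ?_⟩
    have h2 := h1 i j
    simp only [Pi.sub_apply] at h2
    have e : a i - (a₀ + s) i - (a j - (a₀ + s) j) = a i - a₀ i - s i - (a j - a₀ j - s j) := by
      rw [Pi.add_apply, Pi.add_apply]
      abel
    rw [e]
    exact h2

/-- torsion of a quotient by a finite group -/
theorem torsion_quot (N : AddSubgroup M) [Finite N] (hfin : {z : M | n • z = 0}.Finite) :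
    {q : M ⧸ N | n • q = 0}.Finite ∧
      {q : M ⧸ N | n • q = 0}.ncard ≤ {z : M | n • z = 0}.ncard := by
  have hF : Finite {z : M | n • z = 0} := hfin
  -- lifts
  have h1 : ∀ q : {q : M ⧸ N | n • q = 0}, ∃ d : M, (QuotientAddGroup.mk d : M ⧸ N) = q.1 ∧
      n • d ∈ N := by
    rintro ⟨q, hq⟩
    obtain ⟨d, rfl⟩ := QuotientAddGroup.mk_surjective q
    refine ⟨d, rfl, ?_⟩
    rw [← QuotientAddGroup.eq_zero_iff, QuotientAddGroup.mk_nsmul]
    exact hq
  choose d hd1 hd2 using h1
  -- roots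
  have h2 : ∀ ν : M, ∃ b : M, (∃ b' : M, n • b' = ν) → n • b = ν := by
    intro ν
    by_cases h : ∃ b' : M, n • b' = ν
    · obtain ⟨b, hb⟩ := h
      exact ⟨b, fun _ => hb⟩
    · exact ⟨0, fun h' => absurd h' h⟩
  choose b hb using h2
  have hmem : ∀ (q : {q : M ⧸ N | n • q = 0}) (ν : N), n • (d q + ν) ∈ N := by
    intro q ν
    rw [smul_add]
    exact N.add_mem (hd2 q) (N.nsmul_mem ν.2 n)
  set g : {q : M ⧸ N | n • q = 0} × N → {z : M | n • z = 0} × N := fun p =>
    (⟨(d p.1 + p.2) - b (n • (d p.1 + p.2)), by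
      change n • ((d p.1 + p.2) - b (n • (d p.1 + p.2))) = 0
      rw [smul_sub, hb _ ⟨_, rfl⟩, sub_self]⟩,
      ⟨n • (d p.1 + p.2), hmem p.1 p.2⟩) with hg
  have hinj : Function.Injective g := by
    rintro ⟨q, ν⟩ ⟨q', ν'⟩ h
    have e1 : n • (d q + ν) = n • (d q' + ν') := congrArg (fun p => (p.2 : M)) h
    have e2 : (d q + ν) - b (n • (d q + ν)) = (d q' + ν') - b (n • (d q' + ν')) :=
      congrArg (fun p => (p.1 : M)) h
    rw [e1] at e2
    have e3 : d q + ν = d q' + ν' := sub_left_injective e2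
    have e4 : q = q' := by
      apply Subtype.ext
      rw [← hd1, ← hd1, QuotientAddGroup.eq]
      have e5 : -d q + d q' = ν - ν' := by
        have e6 : d q = d q' + ν' - ν := by
          rw [← e3]
          abel
        rw [e6]
        abel
      rw [e5]
      exact N.sub_mem ν.2 ν'.2
    subst e4
    have e5 : (ν : M) = ν' := add_left_cancel e3
    rw [Subtype.ext e5]
  have hfin2 : Finite {q : M ⧸ N | n • q = 0} := by
    refine Finite.of_injective (fun q => g (q, 0)) ?_
    intro q q' h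
    exact congrArg Prod.fst (hinj h)
  refine ⟨hfin2, ?_⟩
  have h3 := Nat.card_le_card_of_injective g hinj
  rw [Nat.card_prod, Nat.card_prod] at h3
  exact Nat.le_of_mul_le_mul_right h3 Nat.card_pos

/-- few coordinate sums and little torsion: few cosets of the group of sum zero vectors -/
theorem few_bar (hn : 0 < n) {A T : Finset (Fin n → M)} (N : AddSubgroup M) [Finite N]
    (hT : ∀ a ∈ A, ∃ s ∈ T, ∀ i j, (a i - s i) - (a j - s j) ∈ N)
    (hfin : {z : M | n • z = 0}.Finite) :
    (bar (zs n N) A).card ≤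
      T.card * ((A.image (fun a => ∑ i, a i)).card * {z : M | n • z = 0}.ncard) := by
  obtain ⟨hq1, hq2⟩ := torsion_quot (n := n) N hfin
  set i₀ : Fin n := ⟨0, hn⟩ with hi₀
  have hT' : ∀ a : Fin n → M, ∃ s, a ∈ A → s ∈ T ∧ ∀ i j, (a i - s i) - (a j - s j) ∈ N := by
    intro a
    by_cases ha : a ∈ A
    · obtain ⟨s, hs⟩ := hT a ha
      exact ⟨s, fun _ => hs⟩
    · exact ⟨0, fun h => absurd h ha⟩
  choose s hs using hT'
  set c : (Fin n → M) → ((Fin n → M) × M) × (M ⧸ N) := fun a =>
    ((s a, ∑ i, a i), QuotientAddGroup.mk (a i₀ - s a i₀)) with hc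
  -- the class is determined by `c`
  have hdet : ∀ a ∈ A, ∀ b ∈ A, c a = c b →
      (QuotientAddGroup.mk a : (Fin n → M) ⧸ zs n N) = QuotientAddGroup.mk b := by
    intro a ha b hb hab
    have e1 : s a = s b := congrArg (fun p => p.1.1) hab
    have e2 : ∑ i, a i = ∑ i, b i := congrArg (fun p => p.1.2) hab
    have e3 : (QuotientAddGroup.mk (a i₀ - s a i₀) : M ⧸ N) =
        QuotientAddGroup.mk (b i₀ - s b i₀) := congrArg (fun p => p.2) hab
    rw [QuotientAddGroup.eq] at e3 ⊢
    rw [mem_zs]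
    refine ⟨fun i => ?_, ?_⟩
    · have h1 := (hs a ha).2 i i₀
      have h2 := (hs b hb).2 i i₀
      rw [e1] at h1 e3
      have e : (-a + b) i = (b i - s b i - (b i₀ - s b i₀)) - (a i - s b i - (a i₀ - s b i₀)) +
          (-(a i₀ - s b i₀) + (b i₀ - s b i₀)) := by
        rw [Pi.add_apply, Pi.neg_apply]
        abel
      rw [e]
      exact N.add_mem (N.sub_mem h2 h1) e3
    · simp only [Pi.add_apply, Pi.neg_apply]
      rw [Finset.sum_add_distrib, Finset.sum_neg_distrib, e2, neg_add_cancel]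
  -- counting the values of `c`
  have h1 : (bar (zs n N) A).card ≤ (A.image c).card := by
    have hex : ∀ x : ((Fin n → M) × M) × (M ⧸ N), ∃ y : (Fin n → M) ⧸ zs n N,
        ∀ a ∈ A, c a = x → y = QuotientAddGroup.mk a := by
      intro x
      by_cases h : ∃ a ∈ A, c a = x
      · obtain ⟨a, ha, hax⟩ := h
        exact ⟨QuotientAddGroup.mk a, fun b hb hbx => hdet a ha b hb (hax.trans hbx.symm)⟩
      · exact ⟨0, fun a ha hax => absurd ⟨a, ha, hax⟩ h⟩
    choose y hy using hex
    have h2 : bar (zs n N) A ⊆ (A.image c).image y := by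
      intro z hz
      obtain ⟨a, ha, rfl⟩ := Finset.mem_image.1 hz
      exact Finset.mem_image.2 ⟨c a, Finset.mem_image_of_mem _ ha, hy _ a ha rfl⟩
    exact (Finset.card_le_card h2).trans Finset.card_image_le
  have h2 : (A.image c).card ≤ {z : M | n • z = 0}.ncard *
      ((A.image c).image (fun x => x.1)).card := by
    refine Finset.card_le_mul_card_image _ _ ?_
    intro p hp
    obtain ⟨x, hx, rfl⟩ := Finset.mem_image.1 hp
    obtain ⟨a, ha, rfl⟩ := Finset.mem_image.1 hx
    refine le_trans ?_ hq2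
    rw [Set.ncard_eq_toFinset_card _ hq1]
    refine Finset.card_le_card_of_injOn (fun x => x.2 - (c a).2) ?_ ?_
    · intro x hx
      rw [Finset.mem_coe, Finset.mem_filter] at hx
      obtain ⟨hx1, hx2⟩ := hx
      obtain ⟨b, hb, rfl⟩ := Finset.mem_image.1 hx1
      rw [Finset.mem_coe, Set.Finite.mem_toFinset]
      have e1 : s b = s a := congrArg Prod.fst hx2
      have e2 : ∑ i, b i = ∑ i, a i := congrArg Prod.snd hx2
      change n • ((QuotientAddGroup.mk (b i₀ - s b i₀) : M ⧸ N) -
        QuotientAddGroup.mk (a i₀ - s a i₀)) = 0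
      rw [← QuotientAddGroup.mk_sub, ← QuotientAddGroup.mk_nsmul, QuotientAddGroup.eq_zero_iff, e1]
      have h3 : ∑ i, ((a i - s a i - (a i₀ - s a i₀)) - (b i - s a i - (b i₀ - s a i₀))) ∈ N := by
        refine AddSubgroup.sum_mem _ fun i _ => N.sub_mem ((hs a ha).2 i i₀) ?_
        have := (hs b hb).2 i i₀
        rwa [e1] at this
      have h4 : ∑ i, ((a i - s a i - (a i₀ - s a i₀)) - (b i - s a i - (b i₀ - s a i₀))) =
          n • ((b i₀ - s a i₀) - (a i₀ - s a i₀)) := by
        have h5 : ∀ i, ((a i - s a i - (a i₀ - s a i₀)) - (b i - s a i - (b i₀ - s a i₀))) =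
            (a i - b i) + ((b i₀ - s a i₀) - (a i₀ - s a i₀)) := by
          intro i
          abel
        rw [Finset.sum_congr rfl fun i _ => h5 i, Finset.sum_add_distrib, Finset.sum_sub_distrib,
          e2, sub_self, zero_add, Finset.sum_const, Finset.card_univ, Fintype.card_fin]
      rw [← h4]
      exact h3
    · intro x hx y hy hxy
      rw [Finset.mem_coe, Finset.mem_filter] at hx hy
      exact Prod.ext (hx.2.trans hy.2.symm) (sub_left_injective hxy)
  have h3 : ((A.image c).image (fun x => x.1)).card ≤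
      (T ×ˢ (A.image (fun a => ∑ i, a i))).card := by
    refine Finset.card_le_card ?_
    intro p hp
    obtain ⟨x, hx, rfl⟩ := Finset.mem_image.1 hp
    obtain ⟨a, ha, rfl⟩ := Finset.mem_image.1 hx
    exact Finset.mem_product.2 ⟨(hs a ha).1, Finset.mem_image_of_mem _ ha⟩
  rw [Finset.card_product] at h3
  calc (bar (zs n N) A).card ≤ (A.image c).card := h1
    _ ≤ _ := h2
    _ ≤ {z : M | n • z = 0}.ncard * (T.card * (A.image (fun a => ∑ i, a i)).card) :=
        Nat.mul_le_mul_left _ h3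
    _ = _ := by ring

end Pool.Agent.T9h99.Sym
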