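import Pool.Agent.T9h99.Sym.Prod
set_option autoImplicit false

/-! Symmetric sets of vectors over an arbitrary abelian group. -/

open scoped Classical Pointwise DirectSum
set_option linter.unusedSectionVars false
set_option linter.unusedVariables false

namespace Pool.Agent.T9h99.Sym

variable {n : ℕ}

/-- transport along an injective homomorphism -/
theorem transport {M' M : Type*} [AddCommGroup M'] [AddCommGroup M] (f : M' →+ M)
    (hf : Function.Injective f) (g : M → M') [DecidableEq (Fin n → M')]
    {A : Finset (Fin n → M)} (hg : ∀ a ∈ A, ∀ i, f (g (a i)) = a i) {b c : ℝ}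
    (h : Concl (A.image (fun a i => g (a i))) b c) : Concl A b c := by
  obtain ⟨N, hN, hN1, T, hT1, hT2⟩ := h
  set F : (Fin n → M') → (Fin n → M) := fun x i => f (x i) with hF
  set A' := A.image (fun a i => g (a i)) with hA'
  have hFinj : Function.Injective F := by
    intro x y hxy
    funext i
    exact hf (congrFun hxy i)
  have hFA : (A : Set (Fin n → M)) = F '' (A' : Set (Fin n → M')) := by
    ext x
    rw [Finset.mem_coe, Set.mem_image]
    constructor
    · intro hx
      refine ⟨fun i => g (x i), Finset.mem_coe.2 (Finset.mem_image_of_mem _ hx), ?_⟩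
      funext i
      exact hg x hx i
    · rintro ⟨y, hy, rfl⟩
      obtain ⟨a, ha, rfl⟩ := Finset.mem_image.1 (Finset.mem_coe.1 hy)
      have : F (fun i => g (a i)) = a := funext fun i => hg a ha i
      rw [this]
      exact ha
  refine ⟨N.map f, ?_, ?_, ?_⟩
  · exact Set.Finite.to_subtype ((Set.toFinite (N : Set M')).image f)
  · have h1 : (A : Set (Fin n → M)) + (zs n (N.map f) : Set (Fin n → M)) ⊆
        F '' ((A' : Set (Fin n → M')) + (zs n N : Set (Fin n → M'))) := by
      intro x hx
      obtain ⟨a, ha, z, hz, rfl⟩ := Set.mem_add.1 hx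
      rw [hFA] at ha
      obtain ⟨a', ha', rfl⟩ := ha
      have h2 : ∀ i, ∃ y ∈ N, f y = z i := fun i => AddSubgroup.mem_map.1 (hz.1 i)
      choose y hy hyz using h2
      refine ⟨a' + y, Set.add_mem_add ha' (mem_zs.2 ⟨hy, ?_⟩), ?_⟩
      · apply hf
        rw [map_sum, map_zero]
        rw [Finset.sum_congr rfl fun i _ => hyz i]
        exact hz.2
      · funext i
        change f (a' i + y i) = f (a' i) + z i
        rw [map_add, hyz]
    have hfin : ((A' : Set (Fin n → M')) + (zs n N : Set (Fin n → M'))).Finite :=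
      (Finset.finite_toSet A').add (zs_finite hN)
    have h2 := Set.ncard_le_ncard h1 (hfin.image F)
    rw [Set.ncard_image_of_injective _ hFinj] at h2
    have h3 : ((((A : Set (Fin n → M)) + (zs n (N.map f) : Set (Fin n → M))).ncard : ℕ) : ℝ) ≤
        (((A' : Set (Fin n → M')) + (zs n N : Set (Fin n → M'))).ncard : ℕ) := by
      exact_mod_cast h2
    exact h3.trans hN1
  · refine ⟨T.image F, ?_, ?_⟩
    · have : ((T.image F).card : ℝ) ≤ T.card := by exact_mod_cast Finset.card_image_le
      exact this.trans hT1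
    · intro a ha
      obtain ⟨s, hs, h1⟩ := hT2 _ (Finset.mem_image_of_mem _ ha)
      refine ⟨F s, Finset.mem_image_of_mem _ hs, fun i j => ?_⟩
      refine AddSubgroup.mem_map.2 ⟨_, h1 i j, ?_⟩
      rw [map_sub, map_sub, map_sub, hg a ha, hg a ha]

/-- **Symmetric sets over an arbitrary abelian group.** -/
theorem sym_gen {M : Type*} [AddCommGroup M] [DecidableEq (Fin n → M)] {A : Finset (Fin n → M)}
    (hA : A.Nonempty) (hI : Inv A) {K : ℝ} (hK1 : 1 ≤ K)
    (hK : ((A + A).card : ℝ) ≤ K * A.card) (hn : 700000000 * Real.log (2 * K) ≤ n) :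
    Concl A (K ^ 6985 * A.card) (8 * K ^ 223239) := by
  -- the group generated by the coordinates
  set S : Finset M := A.biUnion (fun a => Finset.univ.image (fun i => a i)) with hS
  set M1 : AddSubgroup M := AddSubgroup.closure (S : Set M) with hM1
  have hfg : AddGroup.FG M1 :=
    (AddGroup.fg_iff_addSubgroup_fg M1).2 ⟨S, rfl⟩
  obtain ⟨r, ι, hι, p, hp, e, ⟨φ⟩⟩ := AddCommGroup.equiv_free_prod_directSum_zmod M1
  have hmem : ∀ a ∈ A, ∀ i, a i ∈ M1 := by
    intro a ha i
    apply AddSubgroup.subset_closure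
    rw [Finset.mem_coe, hS]
    exact Finset.mem_biUnion.2 ⟨a, ha, Finset.mem_image_of_mem _ (Finset.mem_univ i)⟩
  have hne : ∀ i, NeZero (p i ^ e i) := fun i => ⟨pow_ne_zero _ (hp i).ne_zero⟩
  have hFfin : Finite (⨁ i : ι, ZMod (p i ^ e i)) := by
    have : ∀ i, Finite (ZMod (p i ^ e i)) := fun i => inferInstance
    exact Finite.of_injective (fun x : ⨁ i : ι, ZMod (p i ^ e i) => fun i => x i)
      (fun x y hxy => DFinsupp.ext fun i => congrFun hxy i)
  set f : (Fin r →₀ ℤ) × (⨁ i : ι, ZMod (p i ^ e i)) →+ M :=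
    M1.subtype.comp φ.symm.toAddMonoidHom with hf
  have hfinj : Function.Injective f := by
    rw [hf]
    exact M1.subtype_injective.comp φ.symm.injective
  set g : M → (Fin r →₀ ℤ) × (⨁ i : ι, ZMod (p i ^ e i)) := Function.invFun f with hg
  have hgf : ∀ a ∈ A, ∀ i, f (g (a i)) = a i := by
    intro a ha i
    refine Function.invFun_eq ⟨φ ⟨a i, hmem a ha i⟩, ?_⟩
    rw [hf]
    change ((φ.symm (φ ⟨a i, hmem a ha i⟩) : M1) : M) = a i
    rw [AddEquiv.symm_apply_apply]
  refine transport f hfinj g hgf ?_
  set A' := A.image (fun a i => g (a i)) with hA'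
  have hcard : A'.card = A.card := by
    refine Finset.card_image_of_injOn fun a ha b hb hab => ?_
    funext i
    have h1 : g (a i) = g (b i) := congrFun hab i
    rw [← hgf a ha i, h1, hgf b hb i]
  have hI' : Inv A' := by
    intro σ x hx
    obtain ⟨a, ha, rfl⟩ := Finset.mem_image.1 hx
    exact Finset.mem_image.2 ⟨_, hI σ a ha, rfl⟩
  have hK' : ((A' + A').card : ℝ) ≤ K * A'.card := by
    rw [hcard]
    have h1 : (A' + A').card ≤ (A + A).card := by
      refine Finset.card_le_card_of_injOn (fun x i => f (x i)) ?_ ?_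
      · intro x hx
        obtain ⟨y, hy, z, hz, rfl⟩ := Finset.mem_add.1 (Finset.mem_coe.1 hx)
        obtain ⟨a, ha, rfl⟩ := Finset.mem_image.1 hy
        obtain ⟨b, hb, rfl⟩ := Finset.mem_image.1 hz
        rw [Finset.mem_coe]
        have : (fun i => f (((fun i => g (a i)) + fun i => g (b i) :
            Fin n → (Fin r →₀ ℤ) × (⨁ i : ι, ZMod (p i ^ e i))) i)) = a + b := by
          funext i
          change f (g (a i) + g (b i)) = a i + b i
          rw [map_add, hgf a ha, hgf b hb]
        beta_reduce
        rw [this]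
        exact Finset.add_mem_add ha hb
      · intro x _ y _ hxy
        funext i
        exact hfinj (congrFun hxy i)
    have h2 : ((A' + A').card : ℝ) ≤ (A + A).card := by exact_mod_cast h1
    exact h2.trans hK
  have h1 := prod_case (F := ⨁ i : ι, ZMod (p i ^ e i)) (hA.image _) hI' hK1 hK' hn
  rw [← hA', hcard] at h1
  exact h1

end Pool.Agent.T9h99.Sym
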