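import Pool.Agent.T9h99.Sym.FinMain
set_option autoImplicit false

/-! Symmetric sets of vectors over a finitely generated abelian group. -/

open scoped Classical Pointwise
set_option linter.unusedSectionVars false
set_option linter.unusedVariables false

namespace Pool.Agent.T9h99.Sym

/-- vectors with entries in `N` and coordinate sum zero -/
def zs {M : Type*} [AddCommGroup M] (n : ℕ) (N : AddSubgroup M) : AddSubgroup (Fin n → M) where
  carrier := {x | (∀ i, x i ∈ N) ∧ ∑ i, x i = 0}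
  zero_mem' := ⟨fun _ => N.zero_mem, by simp⟩
  add_mem' := fun hx hy => ⟨fun i => N.add_mem (hx.1 i) (hy.1 i), by
    simp only [Pi.add_apply]
    rw [Finset.sum_add_distrib, hx.2, hy.2, add_zero]⟩
  neg_mem' := fun hx => ⟨fun i => N.neg_mem (hx.1 i), by
    simp only [Pi.neg_apply]
    rw [Finset.sum_neg_distrib, hx.2, neg_zero]⟩

theorem mem_zs {M : Type*} [AddCommGroup M] {n : ℕ} {N : AddSubgroup M} {x : Fin n → M} :
    x ∈ zs n N ↔ (∀ i, x i ∈ N) ∧ ∑ i, x i = 0 := Iff.rfl

theorem zs_finite {M : Type*} [AddCommGroup M] {n : ℕ} {N : AddSubgroup M} (hN : Finite N) :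
    (zs n N : Set (Fin n → M)).Finite := by
  have h1 : (Set.pi Set.univ (fun _ : Fin n => (N : Set M))).Finite :=
    Set.Finite.pi fun _ => Set.toFinite _
  refine h1.subset fun x hx => ?_
  intro i _
  exact hx.1 i

/-- the conclusion of the structure theorem -/
def Concl {M : Type*} [AddCommGroup M] {n : ℕ} (A : Finset (Fin n → M)) (b c : ℝ) : Prop :=
  ∃ N : AddSubgroup M, Finite N ∧
    ((((A : Set (Fin n → M)) + (zs n N : Set (Fin n → M))).ncard : ℕ) : ℝ) ≤ b ∧
    ∃ T : Finset (Fin n → M), (T.card : ℝ) ≤ c ∧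
      ∀ a ∈ A, ∃ s ∈ T, ∀ i j, (a i - s i) - (a j - s j) ∈ N

theorem sym_fin' {V : Type*} [AddCommGroup V] [Finite V] {n : ℕ} [DecidableEq (Fin n → V)]
    {A : Finset (Fin n → V)} (hA : A.Nonempty) (hI : Inv A) {K : ℝ} (hK1 : 1 ≤ K)
    (hK : ((A + A).card : ℝ) ≤ K * A.card) (hn : 700000000 * Real.log (2 * K) ≤ n) :
    Concl A (K ^ 6985 * A.card) (8 * K ^ 223239) := by
  have : Fintype V := Fintype.ofFinite V
  obtain ⟨N, hN1, hT⟩ := sym_fin hA hI hK1
    (le_of_eq_of_le ((Nat.cast_inj (R := ℝ)).2 (add_card_inst _ _ A A)) hK) hn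
  refine ⟨N, inferInstance, ?_, hT⟩
  have h1 : (A : Set (Fin n → V)) + (zs n N : Set (Fin n → V)) ⊆
      ((A + N0 n N : Finset (Fin n → V)) : Set (Fin n → V)) := by
    intro x hx
    obtain ⟨a, ha, z, hz, rfl⟩ := Set.mem_add.1 hx
    exact Finset.mem_coe.2 (Finset.add_mem_add ha (mem_N0.2 hz))
  have h2 := Set.ncard_le_ncard h1 (Finset.finite_toSet _)
  rw [Set.ncard_coe_finset] at h2
  have h3 : ((((A : Set (Fin n → V)) + (zs n N : Set (Fin n → V))).ncard : ℕ) : ℝ) ≤
      (A + N0 n N).card := by exact_mod_cast h2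
  have h4 : ((A + N0 n N).card : ℝ) ≤ K ^ 6985 * A.card :=
    le_of_eq_of_le ((Nat.cast_inj (R := ℝ)).2 (add_card_inst _ _ A (N0 n N))) hN1
  exact h3.trans h4

section prod

variable {n r : ℕ} {F : Type*} [AddCommGroup F] [Finite F]

/-- reduction modulo `q` of the free part -/
def red (r q : ℕ) (F : Type*) [AddCommGroup F] :
    (Fin r →₀ ℤ) × F →+ (Fin r → ZMod q) × F where
  toFun x := (fun j => ((x.1 j : ℤ) : ZMod q), x.2)
  map_zero' := by
    ext
    · simp
    · simp
  map_add' x y := by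
    ext j
    · simp
    · simp

theorem red_fst {q : ℕ} (x : (Fin r →₀ ℤ) × F) (j : Fin r) :
    (red r q F x).1 j = ((x.1 j : ℤ) : ZMod q) := rfl

theorem red_snd {q : ℕ} (x : (Fin r →₀ ℤ) × F) : (red r q F x).2 = x.2 := rfl

theorem red_zero {q : ℕ} {x : (Fin r →₀ ℤ) × F} (hx : ∀ j, (x.1 j).natAbs < q)
    (h : (red r q F x).1 = 0) : x.1 = 0 := by
  ext j
  have h1 := congrFun h j
  rw [red_fst] at h1
  rw [Pi.zero_apply, ZMod.intCast_zmod_eq_zero_iff_dvd] at h1
  rw [Finsupp.zero_apply]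
  refine Int.eq_zero_of_dvd_of_natAbs_lt_natAbs h1 ?_
  rw [Int.natAbs_natCast]
  exact hx j

theorem prod_case [DecidableEq (Fin n → (Fin r →₀ ℤ) × F)]
    {A : Finset (Fin n → (Fin r →₀ ℤ) × F)} (hA : A.Nonempty) (hI : Inv A) {K : ℝ}
    (hK1 : 1 ≤ K) (hK : ((A + A).card : ℝ) ≤ K * A.card)
    (hn : 700000000 * Real.log (2 * K) ≤ n) :
    Concl A (K ^ 6985 * A.card) (8 * K ^ 223239) := by
  have : Fintype F := Fintype.ofFinite F
  have hn2 : 2 ≤ n := by
    have h1 : Real.log 2 ≤ Real.log (2 * K) := Real.log_le_log (by norm_num) (by linarith)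
    have h2 := Real.log_two_gt_d9
    have h3 : (2 : ℝ) ≤ n := by linarith
    exact_mod_cast h3
  -- a large prime
  set E : Finset ((Fin r →₀ ℤ) × F) :=
    ((A ×ˢ A) ×ˢ ((Finset.univ : Finset (Fin n)) ×ˢ (Finset.univ : Finset (Fin n)))).image
      (fun p => (p.1.1 p.2.1 - p.1.2 p.2.1) - (p.1.1 p.2.2 - p.1.2 p.2.2)) ∪
    ((A ×ˢ A) ×ˢ (Finset.univ : Finset (Fin n))).image
      (fun p => p.1.1 p.2 - p.1.2 p.2) with hE
  obtain ⟨q, hq1, hq2⟩ := Nat.exists_infinite_primes
    (E.sup (fun x => Finset.univ.sup (fun j => (x.1 j).natAbs)) + ⌈K ^ 6985 * A.card⌉₊ + 1)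
  have : Fact q.Prime := ⟨hq2⟩
  have hbd : ∀ x ∈ E, ∀ j, (x.1 j).natAbs < q := by
    intro x hx j
    have h1 : (x.1 j).natAbs ≤ Finset.univ.sup (fun j => (x.1 j).natAbs) :=
      Finset.le_sup (f := fun j => (x.1 j).natAbs) (Finset.mem_univ j)
    have h2 : Finset.univ.sup (fun j => (x.1 j).natAbs) ≤
        E.sup (fun x => Finset.univ.sup (fun j => (x.1 j).natAbs)) :=
      Finset.le_sup (f := fun x : (Fin r →₀ ℤ) × F =>
        Finset.univ.sup (fun j => (x.1 j).natAbs)) hx
    omega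
  have hE1 : ∀ a ∈ A, ∀ b ∈ A, ∀ i, a i - b i ∈ E := by
    intro a ha b hb i
    rw [hE]
    refine Finset.mem_union_right _ (Finset.mem_image.2 ⟨((a, b), i), ?_, rfl⟩)
    exact Finset.mem_product.2 ⟨Finset.mem_product.2 ⟨ha, hb⟩, Finset.mem_univ _⟩
  have hE2 : ∀ a ∈ A, ∀ b ∈ A, ∀ i j, (a i - b i) - (a j - b j) ∈ E := by
    intro a ha b hb i j
    rw [hE]
    refine Finset.mem_union_left _ (Finset.mem_image.2 ⟨((a, b), (i, j)), ?_, rfl⟩)
    exact Finset.mem_product.2 ⟨Finset.mem_product.2 ⟨ha, hb⟩,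
      Finset.mem_product.2 ⟨Finset.mem_univ _, Finset.mem_univ _⟩⟩
  have hqK : K ^ 6985 * A.card < q := by
    have h1 : ⌈K ^ 6985 * (A.card : ℝ)⌉₊ < q := by omega
    exact Nat.lt_of_ceil_lt h1
  set ψ := red r q F with hψ
  set Ψ : (Fin n → (Fin r →₀ ℤ) × F) → (Fin n → (Fin r → ZMod q) × F) := fun a i => ψ (a i)
    with hΨ
  have hinj : ∀ a ∈ A, ∀ b ∈ A, Ψ a = Ψ b → a = b := by
    intro a ha b hb hab
    funext i
    have h1 : ψ (a i - b i) = 0 := by
      rw [map_sub, sub_eq_zero]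
      exact congrFun hab i
    have h2 : (a i - b i).1 = 0 := red_zero (hbd _ (hE1 a ha b hb i)) (by
      rw [← hψ, h1]
      rfl)
    have h3 : (a i - b i).2 = 0 := by
      have : (ψ (a i - b i)).2 = (a i - b i).2 := rfl
      rw [← this, h1]
      rfl
    exact sub_eq_zero.1 (Prod.ext h2 h3)
  set B := A.image Ψ with hB
  have hcard : B.card = A.card := Finset.card_image_of_injOn fun a ha b hb h => hinj a ha b hb h
  have hBB : (B + B).card ≤ (A + A).card := by
    have h1 : B + B ⊆ (A + A).image Ψ := by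
      intro x hx
      obtain ⟨y, hy, z, hz, rfl⟩ := Finset.mem_add.1 hx
      obtain ⟨a, ha, rfl⟩ := Finset.mem_image.1 hy
      obtain ⟨b, hb, rfl⟩ := Finset.mem_image.1 hz
      refine Finset.mem_image.2 ⟨a + b, Finset.add_mem_add ha hb, ?_⟩
      funext i
      exact map_add ψ (a i) (b i)
    exact (Finset.card_le_card h1).trans Finset.card_image_le
  have hBI : Inv B := by
    intro σ b hb
    obtain ⟨a, ha, rfl⟩ := Finset.mem_image.1 hb
    exact Finset.mem_image.2 ⟨_, hI σ a ha, rfl⟩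
  have hBK : ((B + B).card : ℝ) ≤ K * B.card := by
    rw [hcard]
    have : ((B + B).card : ℝ) ≤ (A + A).card := by exact_mod_cast hBB
    exact this.trans hK
  obtain ⟨N, _, hN1, T, hT1, hT2⟩ := sym_fin' (hA.image Ψ) hBI hK1 hBK hn
  rw [← hB] at hN1 hT2
  rw [hcard] at hN1
  -- `N` lies in the torsion part
  have hNcard : Nat.card N < q := by
    obtain ⟨b₀, hb₀⟩ := hA.image Ψ
    have hSfin : ((B : Set (Fin n → (Fin r → ZMod q) × F)) +
        (zs n N : Set (Fin n → (Fin r → ZMod q) × F))).Finite := Set.toFinite _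
    have h1 : Nat.card N ≤ ((B : Set (Fin n → (Fin r → ZMod q) × F)) +
        (zs n N : Set (Fin n → (Fin r → ZMod q) × F))).ncard := by
      rw [← Nat.card_coe_set_eq]
      have : Finite ((B : Set (Fin n → (Fin r → ZMod q) × F)) +
        (zs n N : Set (Fin n → (Fin r → ZMod q) × F)) : Set _) := hSfin
      refine Nat.card_le_card_of_injective
        (fun v : N => (⟨b₀ + (Pi.single (⟨0, by omega⟩ : Fin n) (v : (Fin r → ZMod q) × F) -
          Pi.single (⟨1, by omega⟩ : Fin n) (v : (Fin r → ZMod q) × F)), ?_⟩ :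
            ((B : Set (Fin n → (Fin r → ZMod q) × F)) +
        (zs n N : Set (Fin n → (Fin r → ZMod q) × F)) : Set _))) ?_
      · refine Set.add_mem_add (Finset.mem_coe.2 hb₀) (mem_zs.2 ⟨fun i => ?_, ?_⟩)
        · rw [Pi.sub_apply]
          refine N.sub_mem ?_ ?_
          · by_cases h : i = (⟨0, by omega⟩ : Fin n)
            · rw [h, Pi.single_eq_same]
              exact v.2
            · rw [Pi.single_eq_of_ne h]
              exact N.zero_mem
          · by_cases h : i = (⟨1, by omega⟩ : Fin n)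
            · rw [h, Pi.single_eq_same]
              exact v.2
            · rw [Pi.single_eq_of_ne h]
              exact N.zero_mem
        · simp only [Pi.sub_apply]
          rw [Finset.sum_sub_distrib, Finset.sum_pi_single', Finset.sum_pi_single',
            if_pos (Finset.mem_univ _), if_pos (Finset.mem_univ _), sub_self]
      · intro v v' hvv
        have h2 := congrArg Subtype.val hvv
        simp only at h2
        have h3 := congrFun (add_left_cancel h2) (⟨0, by omega⟩ : Fin n)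
        have hne : (⟨0, by omega⟩ : Fin n) ≠ ⟨1, by omega⟩ := by
          intro h
          have := congrArg Fin.val h
          simp at this
        rw [Pi.sub_apply, Pi.sub_apply, Pi.single_eq_same, Pi.single_eq_same,
          Pi.single_eq_of_ne hne, Pi.single_eq_of_ne hne, sub_zero, sub_zero] at h3
        exact Subtype.ext h3
    have h2 : ((((B : Set (Fin n → (Fin r → ZMod q) × F)) +
        (zs n N : Set (Fin n → (Fin r → ZMod q) × F))).ncard : ℕ) : ℝ) < q :=
      lt_of_le_of_lt hN1 hqK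
    have h3 : ((B : Set (Fin n → (Fin r → ZMod q) × F)) +
        (zs n N : Set (Fin n → (Fin r → ZMod q) × F))).ncard < q := by exact_mod_cast h2
    exact lt_of_le_of_lt h1 h3
  have hN0 : ∀ x ∈ N, x.1 = 0 := by
    intro x hx
    have h1 : Nat.card N • (⟨x, hx⟩ : N) = 0 := card_nsmul_eq_zero'
    have h2 : Nat.card N • x = 0 := by
      have h3 : ((Nat.card N • (⟨x, hx⟩ : N) : N) : (Fin r → ZMod q) × F) = ((0 : N) : _) :=
        congrArg Subtype.val h1
      rw [AddSubgroup.coe_nsmul, AddSubgroup.coe_zero] at h3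
      exact h3
    funext j
    have h3 : ((Nat.card N : ℕ) : ZMod q) * x.1 j = 0 := by
      have := congrArg (fun y : (Fin r → ZMod q) × F => y.1 j) h2
      simpa using this
    rcases mul_eq_zero.1 h3 with h4 | h4
    · exfalso
      rw [ZMod.natCast_eq_zero_iff] at h4
      have h5 := Nat.le_of_dvd Nat.card_pos h4
      omega
    · exact h4
  -- the lifted subgroup
  set N' : AddSubgroup ((Fin r →₀ ℤ) × F) :=
    N.comap ψ ⊓ (AddMonoidHom.fst (Fin r →₀ ℤ) F).ker with hN'
  have hmem : ∀ x, x ∈ N' ↔ ψ x ∈ N ∧ x.1 = 0 := fun x => Iff.rfl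
  have hfin : Finite N' := by
    refine Finite.of_injective (fun x : N' => (x : (Fin r →₀ ℤ) × F).2) ?_
    intro x y hxy
    apply Subtype.ext
    exact Prod.ext (((hmem _).1 x.2).2.trans ((hmem _).1 y.2).2.symm) hxy
  refine ⟨N', hfin, ?_, ?_⟩
  · have h1 : ((A : Set (Fin n → (Fin r →₀ ℤ) × F)) + (zs n N' : Set _)).ncard ≤
        ((B : Set (Fin n → (Fin r → ZMod q) × F)) +
        (zs n N : Set (Fin n → (Fin r → ZMod q) × F))).ncard := by
      refine Set.ncard_le_ncard_of_injOn Ψ ?_ ?_ (Set.toFinite _)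
      · intro x hx
        obtain ⟨a, ha, z, hz, rfl⟩ := Set.mem_add.1 hx
        have e : Ψ (a + z) = Ψ a + Ψ z := by
          funext i
          exact map_add ψ (a i) (z i)
        rw [e]
        refine Set.add_mem_add (Finset.mem_coe.2 (Finset.mem_image_of_mem _ ha))
          (mem_zs.2 ⟨fun i => ?_, ?_⟩)
        · exact ((hmem _).1 (hz.1 i)).1
        · have h2 : ∑ i, ψ (z i) = ψ (∑ i, z i) := (map_sum ψ _ _).symm
          change ∑ i, ψ (z i) = 0
          rw [h2, hz.2, map_zero]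
      · intro x hx y hy hxy
        obtain ⟨a, ha, z, hz, rfl⟩ := Set.mem_add.1 hx
        obtain ⟨b, hb, z', hz', rfl⟩ := Set.mem_add.1 hy
        funext i
        have h2 : ψ (a i + z i) = ψ (b i + z' i) := congrFun hxy i
        have h3 : (z i).1 = 0 := ((hmem _).1 (hz.1 i)).2
        have h4 : (z' i).1 = 0 := ((hmem _).1 (hz'.1 i)).2
        have h5 : (a i - b i).1 = 0 := by
          refine red_zero (hbd _ (hE1 a ha b hb i)) ?_
          have h6 := congrArg Prod.fst h2
          funext j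
          have h7 := congrFun h6 j
          rw [red_fst, red_fst] at h7
          rw [red_fst]
          have h8 : (a i + z i).1 j = (a i).1 j := by
            rw [Prod.fst_add, h3, add_zero]
          have h9 : (b i + z' i).1 j = (b i).1 j := by
            rw [Prod.fst_add, h4, add_zero]
          rw [h8, h9] at h7
          rw [Prod.fst_sub, Finsupp.sub_apply, Int.cast_sub, h7, sub_self]
          rfl
        have h6 : (a i + z i).2 = (b i + z' i).2 := by
          have h7 : (ψ (a i + z i)).2 = (ψ (b i + z' i)).2 := by rw [h2]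
          exact h7
        refine Prod.ext ?_ h6
        change (a i).1 + (z i).1 = (b i).1 + (z' i).1
        rw [h3, h4, add_zero, add_zero]
        exact sub_eq_zero.1 h5
    have h2 : ((((A : Set (Fin n → (Fin r →₀ ℤ) × F)) + (zs n N' : Set _)).ncard : ℕ) : ℝ) ≤
        (((B : Set (Fin n → (Fin r → ZMod q) × F)) +
        (zs n N : Set (Fin n → (Fin r → ZMod q) × F))).ncard : ℕ) := by exact_mod_cast h1
    exact h2.trans hN1
  · -- the cover
    have hex : ∀ s : Fin n → (Fin r → ZMod q) × F, ∃ a : Fin n → (Fin r →₀ ℤ) × F,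
        (∃ b ∈ A, ∀ i j, (Ψ b i - s i) - (Ψ b j - s j) ∈ N) →
          a ∈ A ∧ ∀ i j, (Ψ a i - s i) - (Ψ a j - s j) ∈ N := by
      intro s
      by_cases h : ∃ b ∈ A, ∀ i j, (Ψ b i - s i) - (Ψ b j - s j) ∈ N
      · obtain ⟨b, hb⟩ := h
        exact ⟨b, fun _ => hb⟩
      · exact ⟨0, fun h' => absurd h' h⟩
    choose ρ hρ using hex
    refine ⟨T.image ρ, ?_, ?_⟩
    · have : ((T.image ρ).card : ℝ) ≤ T.card := by exact_mod_cast Finset.card_image_le
      exact this.trans hT1
    · intro a ha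
      obtain ⟨s, hs, h1⟩ := hT2 (Ψ a) (Finset.mem_image_of_mem _ ha)
      obtain ⟨h2, h3⟩ := hρ s ⟨a, ha, h1⟩
      refine ⟨ρ s, Finset.mem_image_of_mem _ hs, fun i j => ?_⟩
      rw [hmem]
      have h4 : ψ ((a i - ρ s i) - (a j - ρ s j)) ∈ N := by
        have h5 := N.sub_mem (h1 i j) (h3 i j)
        have e : ψ ((a i - ρ s i) - (a j - ρ s j)) = Ψ a i - s i - (Ψ a j - s j) -
            (Ψ (ρ s) i - s i - (Ψ (ρ s) j - s j)) := by
          rw [map_sub, map_sub, map_sub]
          simp only [hΨ]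
          abel
        rw [e]
        exact h5
      refine ⟨h4, red_zero (hbd _ (hE2 a ha _ h2 i j)) (hN0 _ h4)⟩

end prod

end Pool.Agent.T9h99.Sym
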