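import Pool.Agent.T9h99.Sym.Dense
set_option autoImplicit false

/-! Most coordinates of most elements of a symmetric set agree modulo the subgroup. -/

open scoped Classical Pointwise
set_option linter.unusedSectionVars false
set_option linter.unusedVariables false

namespace Pool.Agent.T9h99.Sym

open H137.PFR H137.TwoPow H137.Weak

theorem one_sub_le_cp {Ω γ δ : Type*} [Fintype Ω] {w : Ω → ℝ} (hw : Law w) (C : Ω → γ)
    (D : Ω → δ) : 1 - (Hg w D - Hg w C) ≤ ∑ ω, w ω * N149.Tow.cp w C D ω := by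
  have h1 : ∀ ω, w ω * (1 - N149.Tow.cp w C D ω) ≤
      w ω * (-Real.log (push w D (D ω))) - w ω * (-Real.log (push w C (C ω))) := by
    intro ω
    by_cases h0 : w ω = 0
    · rw [h0]
      simp
    · have hpos : 0 < w ω := lt_of_le_of_ne (hw.1 ω) (Ne.symm h0)
      have h3 : 0 < push w D (D ω) := lt_of_lt_of_le hpos (N149.Tow.le_push hw _ _)
      have h4 : 0 < push w C (C ω) := lt_of_lt_of_le hpos (N149.Tow.le_push hw _ _)
      have h5 : 0 < N149.Tow.cp w C D ω := div_pos h3 h4
      have h6 := Real.log_le_sub_one_of_pos h5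
      have h7 : Real.log (N149.Tow.cp w C D ω) =
          Real.log (push w D (D ω)) - Real.log (push w C (C ω)) := by
        unfold N149.Tow.cp
        rw [Real.log_div h3.ne' h4.ne']
      rw [h7] at h6
      have h8 : w ω * (-Real.log (push w D (D ω))) - w ω * (-Real.log (push w C (C ω))) =
          w ω * (Real.log (push w C (C ω)) - Real.log (push w D (D ω))) := by ring
      rw [h8]
      exact mul_le_mul_of_nonneg_left (by linarith) hpos.le
  have h2 := Finset.sum_le_sum fun ω (_ : ω ∈ Finset.univ) => h1 ω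
  rw [Finset.sum_sub_distrib] at h2
  have h3 : ∑ ω, w ω * (1 - N149.Tow.cp w C D ω) = 1 - ∑ ω, w ω * N149.Tow.cp w C D ω := by
    have h4 : ∑ ω, w ω * (1 - N149.Tow.cp w C D ω) =
        ∑ ω, (w ω - w ω * N149.Tow.cp w C D ω) := Finset.sum_congr rfl fun ω _ => by ring
    rw [h4, Finset.sum_sub_distrib, hw.2]
  rw [h3] at h2
  have h4 : ∑ ω, w ω * (-Real.log (push w D (D ω))) = Hg w D := rfl
  have h5 : ∑ ω, w ω * (-Real.log (push w C (C ω))) = Hg w C := rfl
  rw [h4, h5] at h2
  linarith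

variable {n : ℕ} {V : Type*} [AddCommGroup V]

theorem swap_good {A : Finset (Fin n → V)} (hA : A.Nonempty) (hI : Inv A) {k : ℕ}
    (hk : k + 1 < n) (N : AddSubgroup V) {ε : ℝ}
    (h : hh (uw A) (fun ω : A => (ω : Fin n → V)) (Ek n k N) ≤
      hh (uw A) (fun ω : A => (ω : Fin n → V)) (Mk n V k) + ε) :
    (((A.filter (fun a => a ⟨k, by omega⟩ - a ⟨k + 1, hk⟩ ∉ N)).card : ℕ) : ℝ) ≤
      2 * ε * A.card := by
  have hk' : k < n := by omega
  have hc : (0 : ℝ) < A.card := by exact_mod_cast hA.card_pos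
  have hw := law_uw hA
  set C : A → (Fin n → V) ⧸ Mk n V k := fun ω => ((ω : Fin n → V) : (Fin n → V) ⧸ Mk n V k)
    with hC
  set D : A → (Fin n → V) ⧸ Ek n k N := fun ω => ((ω : Fin n → V) : (Fin n → V) ⧸ Ek n k N)
    with hD
  have hCD : ∀ ω ω', D ω = D ω' → C ω = C ω' := by
    intro ω ω' h1
    rw [hD] at h1
    rw [hC]
    simp only at h1 ⊢
    rw [QuotientAddGroup.eq, mem_Ek hk'] at h1
    rw [QuotientAddGroup.eq, mem_Mk]
    exact h1.1
  obtain ⟨S, hS, h1⟩ := N149.Tow.greedy hw C D hCD (uw A) hw.1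
  have h2 := one_sub_le_cp hw C D
  have h3 : 1 - ε ≤ ∑ ω ∈ S, uw A ω := by
    have : Hg (uw A) D - Hg (uw A) C ≤ ε := by
      have h4 : Hg (uw A) D = hh (uw A) (fun ω : A => (ω : Fin n → V)) (Ek n k N) := rfl
      have h5 : Hg (uw A) C = hh (uw A) (fun ω : A => (ω : Fin n → V)) (Mk n V k) := rfl
      rw [h4, h5]
      linarith
    linarith
  have h4 : (1 - ε) * A.card ≤ S.card := by
    unfold uw at h3
    rw [Finset.sum_const, nsmul_eq_mul] at h3
    rw [← div_eq_mul_inv, le_div_iff₀ hc] at h3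
    exact h3
  -- the complement of S
  have hcompl : ((Sᶜ.card : ℕ) : ℝ) ≤ ε * A.card := by
    have h5 := Finset.card_compl_add_card S
    rw [Fintype.card_coe] at h5
    have h6 : ((Sᶜ.card : ℕ) : ℝ) + S.card = A.card := by exact_mod_cast h5
    linarith
  set σ : Equiv.Perm (Fin n) := Equiv.swap ⟨k, hk'⟩ ⟨k + 1, hk⟩ with hσ
  have hbad : A.filter (fun a => a ⟨k, by omega⟩ - a ⟨k + 1, hk⟩ ∉ N) ⊆
      (Sᶜ).image (fun ω : A => (ω : Fin n → V)) ∪
        (Sᶜ).image (fun ω : A => ((permEquiv hI σ).symm ω : A).1) := by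
    intro a ha
    obtain ⟨ha, hbad⟩ := Finset.mem_filter.1 ha
    by_contra hcon
    rw [Finset.mem_union, not_or] at hcon
    obtain ⟨g1, g2⟩ := hcon
    have i1 : (⟨a, ha⟩ : A) ∈ S := by
      by_contra h5
      exact g1 (Finset.mem_image.2 ⟨⟨a, ha⟩, Finset.mem_compl.2 h5, rfl⟩)
    have i2 : permEquiv hI σ ⟨a, ha⟩ ∈ S := by
      by_contra h5
      exact g2 (Finset.mem_image.2 ⟨permEquiv hI σ ⟨a, ha⟩, Finset.mem_compl.2 h5, by
        rw [Equiv.symm_apply_apply]⟩)
    have i3 : C ⟨a, ha⟩ = C (permEquiv hI σ ⟨a, ha⟩) := by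
      rw [hC]
      simp only
      rw [QuotientAddGroup.eq, mem_Mk]
      intro i hi
      change -a i + a (σ i) = 0
      rw [hσ, Equiv.swap_apply_of_ne_of_ne]
      · exact neg_add_cancel _
      · intro h6
        have := congrArg Fin.val h6
        simp only at this
        omega
      · intro h6
        have := congrArg Fin.val h6
        simp only at this
        omega
    have i4 := hS _ i1 _ i2 i3
    rw [hD] at i4
    simp only at i4
    rw [QuotientAddGroup.eq, mem_Ek hk'] at i4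
    have i5 : -a ⟨k, hk'⟩ + a (σ ⟨k, hk'⟩) ∈ N := i4.2
    rw [hσ, Equiv.swap_apply_left] at i5
    apply hbad
    have e : a ⟨k, hk'⟩ - a ⟨k + 1, hk⟩ = -(-a ⟨k, hk'⟩ + a ⟨k + 1, hk⟩) := by abel
    rw [e]
    exact N.neg_mem i5
  have h5 := (Finset.card_le_card hbad).trans (Finset.card_union_le _ _)
  have h6 : (A.filter (fun a => a ⟨k, by omega⟩ - a ⟨k + 1, hk⟩ ∉ N)).card ≤ 2 * Sᶜ.card := by
    have h7 := Finset.card_image_le (s := Sᶜ) (f := fun ω : A => (ω : Fin n → V))
    have h8 := Finset.card_image_le (s := Sᶜ)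
      (f := fun ω : A => ((permEquiv hI σ).symm ω : A).1)
    omega
  have h7 : (((A.filter (fun a => a ⟨k, by omega⟩ - a ⟨k + 1, hk⟩ ∉ N)).card : ℕ) : ℝ) ≤
      2 * (Sᶜ.card : ℕ) := by exact_mod_cast h6
  linarith

/-- a permutation with two prescribed values -/
theorem exists_perm {i j k l : Fin n} (hij : i ≠ j) (hkl : k ≠ l) :
    ∃ σ : Equiv.Perm (Fin n), σ k = i ∧ σ l = j := by
  refine ⟨(Equiv.swap k i).trans (Equiv.swap (Equiv.swap k i l) j), ?_, ?_⟩
  · rw [Equiv.trans_apply, Equiv.swap_apply_left, Equiv.swap_apply_of_ne_of_ne _ hij]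
    intro h
    have h1 : Equiv.swap k i k = i := Equiv.swap_apply_left k i
    have h2 : Equiv.swap k i k = Equiv.swap k i l := h1.trans h
    exact hkl ((Equiv.swap k i).injective h2)
  · rw [Equiv.trans_apply, Equiv.swap_apply_left]

theorem pair_good {A : Finset (Fin n → V)} (hI : Inv A) (N : AddSubgroup V) {i j k l : Fin n}
    (hij : i ≠ j) (hkl : k ≠ l) :
    (A.filter (fun a => a i - a j ∉ N)).card ≤ (A.filter (fun a => a k - a l ∉ N)).card := by
  obtain ⟨σ, h1, h2⟩ := exists_perm hij hkl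
  refine Finset.card_le_card_of_injOn (fun a m => a (σ m)) ?_ ?_
  · intro a ha
    rw [Finset.mem_coe, Finset.mem_filter] at ha ⊢
    refine ⟨hI σ a ha.1, ?_⟩
    beta_reduce
    rw [h1, h2]
    exact ha.2
  · intro a _ b _ hab
    funext m
    have := congrFun hab (σ.symm m)
    simpa using this

/-- number of coordinates different from the coordinate `j` modulo `N` -/
noncomputable def dif (N : AddSubgroup V) (a : Fin n → V) (j : Fin n) : ℕ :=
  (Finset.univ.filter (fun i => a i - a j ∉ N)).card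

/-- **Half of the set is nearly constant modulo `N`.** -/
theorem sparse_half {A : Finset (Fin n → V)} (hA : A.Nonempty) (hI : Inv A) {k : ℕ}
    (hk : k + 1 < n) (N : AddSubgroup V) {ε : ℝ}
    (h : hh (uw A) (fun ω : A => (ω : Fin n → V)) (Ek n k N) ≤
      hh (uw A) (fun ω : A => (ω : Fin n → V)) (Mk n V k) + ε) (t : ℕ)
    (ht : 4 * ε * n ≤ t + 1) :
    A.card ≤ 2 * (A.filter (fun a => ∃ j, dif N a j ≤ t)).card := by
  have hn : (0 : ℝ) < n := by
    have : 0 < n := by omega
    exact_mod_cast this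
  have hne : (⟨k, by omega⟩ : Fin n) ≠ ⟨k + 1, hk⟩ := by
    intro h1
    have := congrArg Fin.val h1
    simp only at this
    omega
  have h1 := swap_good hA hI hk N h
  have h0 : (0 : ℝ) ≤ 2 * ε * A.card := le_trans (Nat.cast_nonneg _) h1
  -- double counting
  have h2 : ((∑ a ∈ A, ∑ j, dif N a j : ℕ) : ℝ) ≤ n * (n * (2 * ε * A.card)) := by
    have h3 : ∑ a ∈ A, ∑ j, dif N a j =
        ∑ j : Fin n, ∑ i : Fin n, (A.filter (fun a => a i - a j ∉ N)).card := by
      rw [Finset.sum_comm]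
      refine Finset.sum_congr rfl fun j _ => ?_
      unfold dif
      simp only [Finset.card_filter]
      rw [Finset.sum_comm]
    rw [h3]
    push_cast
    have h4 : ∀ j i : Fin n, (((A.filter (fun a => a i - a j ∉ N)).card : ℕ) : ℝ) ≤
        2 * ε * A.card := by
      intro j i
      by_cases hij : i = j
      · have h5 : A.filter (fun a => a i - a j ∉ N) = ∅ := by
          refine Finset.filter_eq_empty_iff.2 fun a _ h6 => h6 ?_
          rw [hij, sub_self]
          exact N.zero_mem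
        rw [h5, Finset.card_empty, Nat.cast_zero]
        exact h0
      · have h5 : (((A.filter (fun a => a i - a j ∉ N)).card : ℕ) : ℝ) ≤
            ((A.filter (fun a => a ⟨k, by omega⟩ - a ⟨k + 1, hk⟩ ∉ N)).card : ℕ) := by
          exact_mod_cast pair_good hI N hij hne
        exact h5.trans h1
    calc ∑ j : Fin n, ∑ i : Fin n, (((A.filter (fun a => a i - a j ∉ N)).card : ℕ) : ℝ)
        ≤ ∑ j : Fin n, ∑ i : Fin n, 2 * ε * A.card :=
          Finset.sum_le_sum fun j _ => Finset.sum_le_sum fun i _ => h4 j i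
      _ = n * (n * (2 * ε * A.card)) := by
          rw [Finset.sum_const, Finset.sum_const, Finset.card_univ, Fintype.card_fin,
            nsmul_eq_mul, nsmul_eq_mul]
  -- the exceptional set
  set B := A.filter (fun a => ¬ ∃ j, dif N a j ≤ t) with hB
  have h3 : B.card * (n * (t + 1)) ≤ ∑ a ∈ A, ∑ j, dif N a j := by
    calc B.card * (n * (t + 1)) = ∑ a ∈ B, n * (t + 1) := by
          rw [Finset.sum_const, smul_eq_mul]
      _ ≤ ∑ a ∈ B, ∑ j, dif N a j := by
          refine Finset.sum_le_sum fun a ha => ?_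
          have h4 := (Finset.mem_filter.1 ha).2
          push Not at h4
          calc n * (t + 1) = ∑ j : Fin n, (t + 1) := by
                rw [Finset.sum_const, Finset.card_univ, Fintype.card_fin, smul_eq_mul]
            _ ≤ _ := Finset.sum_le_sum fun j _ => h4 j
      _ ≤ _ := Finset.sum_le_sum_of_subset (Finset.filter_subset _ _)
  have h4 : (B.card : ℝ) * (n * (t + 1)) ≤ n * (n * (2 * ε * A.card)) := by
    have h5 : ((B.card * (n * (t + 1)) : ℕ) : ℝ) ≤ ((∑ a ∈ A, ∑ j, dif N a j : ℕ) : ℝ) := by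
      exact_mod_cast h3
    push_cast at h5 h2
    linarith
  have h5 : (B.card : ℝ) * (t + 1) ≤ n * (2 * ε * A.card) := by
    have h6 : (n : ℝ) * ((B.card : ℝ) * (t + 1)) ≤ n * (n * (2 * ε * A.card)) := by
      linarith
    exact le_of_mul_le_mul_left h6 hn
  have h6 : (B.card : ℝ) * (t + 1) ≤ (A.card / 2 : ℝ) * (t + 1) := by
    have h7 : (n : ℝ) * (2 * ε * A.card) = (4 * ε * n) * (A.card / 2) := by ring
    rw [h7] at h5
    have h8 : (4 * ε * n) * ((A.card : ℝ) / 2) ≤ (t + 1) * (A.card / 2) :=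
      mul_le_mul_of_nonneg_right ht (by positivity)
    linarith
  have h7 : (B.card : ℝ) ≤ A.card / 2 := le_of_mul_le_mul_right h6 (by positivity)
  have h8 : (A.filter (fun a => ∃ j, dif N a j ≤ t)).card + B.card = A.card := by
    rw [hB]
    convert Finset.card_filter_add_card_filter_not (s := A) (fun a => ∃ j, dif N a j ≤ t)
  have h9 : 2 * B.card ≤ A.card := by
    have : (2 : ℝ) * B.card ≤ A.card := by linarith
    exact_mod_cast this
  omega

end Pool.Agent.T9h99.Sym
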