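import Pool.Agent.T9h99.Sym.Ent
set_option autoImplicit false

/-! A subgroup carrying the structure of one coordinate. -/

open scoped Classical Pointwise
set_option linter.unusedSectionVars false
set_option linter.unusedVariables false

namespace Pool.Agent.T9h99.Sym

open H137.PFR H137.TwoPow H137.Weak

variable {n : ℕ} {V : Type*} [AddCommGroup V]

/-- the first `k` coordinates vanish -/
def Mk (n : ℕ) (V : Type*) [AddCommGroup V] (k : ℕ) : AddSubgroup (Fin n → V) :=
  box (fun i => if (i : ℕ) < k then ⊥ else ⊤)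

/-- the first `k` coordinates vanish and the next one is in `N` -/
def Ek (n : ℕ) (k : ℕ) (N : AddSubgroup V) : AddSubgroup (Fin n → V) :=
  box (fun i => if (i : ℕ) < k then ⊥ else if (i : ℕ) = k then N else ⊤)

/-- the first `j` coordinates are in `N`, the next ones up to `k` vanish -/
def Pj (n : ℕ) (j k : ℕ) (N : AddSubgroup V) : AddSubgroup (Fin n → V) :=
  box (fun i => if (i : ℕ) < j then N else if (i : ℕ) ≤ k then ⊥ else ⊤)

theorem mem_Mk {k : ℕ} {x : Fin n → V} : x ∈ Mk n V k ↔ ∀ i : Fin n, (i : ℕ) < k → x i = 0 := by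
  unfold Mk
  rw [mem_box]
  refine forall_congr' fun i => ?_
  by_cases h : (i : ℕ) < k
  · rw [if_pos h, AddSubgroup.mem_bot]
    exact ⟨fun h _ => h, fun h' => h' h⟩
  · rw [if_neg h]
    exact ⟨fun _ h' => absurd h' h, fun _ => AddSubgroup.mem_top _⟩

theorem mem_Ek {k : ℕ} {N : AddSubgroup V} {x : Fin n → V} (hk : k < n) :
    x ∈ Ek n k N ↔ (∀ i : Fin n, (i : ℕ) < k → x i = 0) ∧ x ⟨k, hk⟩ ∈ N := by
  unfold Ek
  rw [mem_box]
  constructor
  · intro h
    refine ⟨fun i hi => ?_, ?_⟩
    · have := h i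
      rw [if_pos hi, AddSubgroup.mem_bot] at this
      exact this
    · have := h ⟨k, hk⟩
      rw [if_neg (lt_irrefl _), if_pos rfl] at this
      exact this
  · rintro ⟨h1, h2⟩ i
    split_ifs with h3 h4
    · exact (AddSubgroup.mem_bot).2 (h1 i h3)
    · have : i = ⟨k, hk⟩ := Fin.ext h4
      rw [this]
      exact h2
    · exact AddSubgroup.mem_top _

theorem mem_Pj {j k : ℕ} {N : AddSubgroup V} {x : Fin n → V} :
    x ∈ Pj n j k N ↔ ∀ i : Fin n, ((i : ℕ) < j → x i ∈ N) ∧
      (¬ (i : ℕ) < j → (i : ℕ) ≤ k → x i = 0) := by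
  unfold Pj
  rw [mem_box]
  refine forall_congr' fun i => ?_
  split_ifs with h1 h2
  · exact ⟨fun h => ⟨fun _ => h, fun h' => absurd h1 h'⟩, fun h => h.1 h1⟩
  · rw [AddSubgroup.mem_bot]
    exact ⟨fun h => ⟨fun h' => absurd h' h1, fun _ _ => h⟩, fun h => h.2 h1 h2⟩
  · exact ⟨fun _ => ⟨fun h' => absurd h' h1, fun _ h' => absurd h' h2⟩,
      fun _ => AddSubgroup.mem_top _⟩

theorem Mk_anti {k l : ℕ} (h : k ≤ l) : Mk n V l ≤ Mk n V k := by
  intro x hx
  rw [mem_Mk] at hx ⊢
  exact fun i hi => hx i (by omega)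

theorem Mk_zero : Mk n V 0 = ⊤ := by
  ext x
  rw [mem_Mk]
  exact ⟨fun _ => AddSubgroup.mem_top _, fun _ i hi => absurd hi (Nat.not_lt_zero _)⟩

/-- **One coordinate.** -/
theorem stage_k [Finite V] {Ω : Type*} [Fintype Ω] {w : Ω → ℝ} (hw : Law w)
    (X : Ω → Fin n → V) {k : ℕ} (hk : k < n)
    (hsmall : kk w X (Mk n V (k + 1)) - kk w X (Mk n V k) ≤ 1 / 40000000) :
    ∃ N : AddSubgroup V,
      hh w X (Ek n k N) + Real.log (Nat.card N) ≤ hh w X (Mk n V (k + 1)) +
        218 * (kk w X (Mk n V (k + 1)) - kk w X (Mk n V k)) ∧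
      hh w X (Ek n k N) ≤ hh w X (Mk n V k) +
        218 * (kk w X (Mk n V (k + 1)) - kk w X (Mk n V k)) := by
  have hfin : (Mk n V (k + 1)).relIndex (Mk n V k) ≠ 0 := by
    unfold AddSubgroup.relIndex
    exact AddSubgroup.index_ne_zero_of_finite
  obtain ⟨N', h1, h2, h3⟩ := N149.Tow.stage_pair_99 hw X (Mk_anti (Nat.le_succ k)) hfin hsmall
  set ev : (Fin n → V) →+ V := Pi.evalAddMonoidHom (fun _ => V) ⟨k, hk⟩ with hev
  have hN' : N' = Ek n k (N'.map ev) := by
    ext x
    rw [mem_Ek hk]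
    constructor
    · intro hx
      exact ⟨mem_Mk.1 (h2 hx), AddSubgroup.mem_map.2 ⟨x, hx, rfl⟩⟩
    · rintro ⟨h4, h5⟩
      obtain ⟨y, hy, hyx⟩ := AddSubgroup.mem_map.1 h5
      have h6 : x - y ∈ Mk n V (k + 1) := by
        rw [mem_Mk]
        intro i hi
        rw [Pi.sub_apply]
        by_cases h7 : (i : ℕ) < k
        · rw [h4 i h7, mem_Mk.1 (h2 hy) i h7, sub_zero]
        · have h8 : i = ⟨k, hk⟩ := Fin.ext (show (i : ℕ) = k by omega)
          rw [h8]
          have : y ⟨k, hk⟩ = x ⟨k, hk⟩ := hyx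
          rw [this, sub_self]
      have h7 : x = (x - y) + y := by abel
      rw [h7]
      exact N'.add_mem (h1 h6) hy
  have hidx : (Mk n V (k + 1)).relIndex N' = Nat.card (N'.map ev) := by
    rw [← AddSubgroup.relIndex_ker, ← AddSubgroup.inf_relIndex_right,
      ← AddSubgroup.inf_relIndex_right ev.ker]
    congr 1
    ext x
    rw [AddSubgroup.mem_inf, AddSubgroup.mem_inf, AddMonoidHom.mem_ker, mem_Mk]
    constructor
    · rintro ⟨h4, h5⟩
      exact ⟨h4 ⟨k, hk⟩ (Nat.lt_succ_self k), h5⟩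
    · rintro ⟨h4, h5⟩
      refine ⟨fun i hi => ?_, h5⟩
      by_cases h7 : (i : ℕ) < k
      · exact mem_Mk.1 (h2 h5) i h7
      · have h8 : i = ⟨k, hk⟩ := Fin.ext (show (i : ℕ) = k by omega)
        rw [h8]
        exact h4
  have hle := hh_le_add_log (w := w) (N := Mk n V (k + 1)) (M := N') hw X h1 (by
    intro h
    have h4 := AddSubgroup.relIndex_mul_relIndex (Mk n V (k + 1)) N' (Mk n V k) h1 h2
    rw [h, zero_mul] at h4
    exact hfin h4.symm)
  have hanti := hh_anti hw X h2
  rw [hidx] at h3 hle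
  refine ⟨N'.map ev, ?_, ?_⟩
  · rw [← hN']
    linarith
  · rw [← hN']
    linarith

/-- all coordinates up to `k` together -/
theorem hh_Pj {A : Finset (Fin n → V)} (hA : A.Nonempty) (hI : Inv A) {k : ℕ} (hk : k < n)
    (N : AddSubgroup V) {ε : ℝ}
    (h : hh (uw A) (fun ω : A => (ω : Fin n → V)) (Ek n k N) + Real.log (Nat.card N) ≤
      hh (uw A) (fun ω : A => (ω : Fin n → V)) (Mk n V (k + 1)) + ε) :
    ∀ j, j ≤ k + 1 →
      hh (uw A) (fun ω : A => (ω : Fin n → V)) (Pj n j k N) + j * Real.log (Nat.card N) ≤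
        hh (uw A) (fun ω : A => (ω : Fin n → V)) (Mk n V (k + 1)) + j * ε := by
  intro j
  induction j with
  | zero =>
    intro _
    have h1 : Pj n 0 k N = Mk n V (k + 1) := by
      ext x
      rw [mem_Pj, mem_Mk]
      refine forall_congr' fun i => ?_
      constructor
      · rintro ⟨_, h2⟩ h3
        exact h2 (Nat.not_lt_zero _) (by omega)
      · intro h2
        exact ⟨fun h3 => absurd h3 (Nat.not_lt_zero _), fun _ h3 => h2 (by omega)⟩
    rw [h1]
    simp
  | succ j ih =>
    intro hj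
    have ih' := ih (by omega)
    set E : AddSubgroup (Fin n → V) := box (fun i : Fin n => if (i : ℕ) = j then N else
      if (i : ℕ) ≤ k then ⊥ else ⊤) with hE
    have e1 : hh (uw A) (fun ω : A => (ω : Fin n → V)) E =
        hh (uw A) (fun ω : A => (ω : Fin n → V)) (Ek n k N) := by
      have h2 := hh_perm hI (Equiv.swap (⟨j, by omega⟩ : Fin n) ⟨k, hk⟩)
        (fun i => if (i : ℕ) < k then ⊥ else if (i : ℕ) = k then N else ⊤)
      have h3 : E = box (fun i => (fun i : Fin n => if (i : ℕ) < k then (⊥ : AddSubgroup V) else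
          if (i : ℕ) = k then N else ⊤) ((Equiv.swap (⟨j, by omega⟩ : Fin n) ⟨k, hk⟩) i)) := by
        rw [hE]
        congr 1
        funext i
        by_cases hij : (i : ℕ) = j
        · have : i = ⟨j, by omega⟩ := Fin.ext hij
          rw [if_pos hij, this, Equiv.swap_apply_left]
          simp
        · by_cases hik : (i : ℕ) = k
          · have : i = ⟨k, hk⟩ := Fin.ext hik
            rw [if_neg hij, this, Equiv.swap_apply_right]
            have hjk : j < k := by omega
            simp [hjk]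
          · rw [if_neg hij, Equiv.swap_apply_of_ne_of_ne (fun h => hij (congrArg Fin.val h))
              (fun h => hik (congrArg Fin.val h))]
            by_cases hik2 : (i : ℕ) < k
            · simp only [if_pos hik2, if_pos hik2.le]
            · simp only [if_neg hik2, if_neg hik, if_neg (show ¬ (i : ℕ) ≤ k by omega)]
      rw [h3]
      exact h2
    have e2 : Pj n j k N ⊓ E = Mk n V (k + 1) := by
      ext x
      rw [AddSubgroup.mem_inf, mem_Pj, hE, mem_box, mem_Mk]
      constructor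
      · rintro ⟨h2, h3⟩ i hi
        have h4 := h3 i
        by_cases hij : (i : ℕ) = j
        · exact (h2 i).2 (by omega) (by omega)
        · rw [if_neg hij, if_pos (by omega)] at h4
          exact h4
      · intro h2
        refine ⟨fun i => ⟨fun h3 => ?_, fun _ h3 => h2 i (by omega)⟩, fun i => ?_⟩
        · rw [h2 i (by omega)]
          exact N.zero_mem
        · split_ifs with h3 h4
          · rw [h2 i (by omega)]
            exact N.zero_mem
          · exact AddSubgroup.mem_bot.2 (h2 i (by omega))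
          · exact AddSubgroup.mem_top _
    have e3 : Pj n j k N ⊔ E = Pj n (j + 1) k N := by
      unfold Pj
      rw [hE, box_sup]
      congr 1
      funext i
      by_cases h2 : (i : ℕ) < j
      · rw [if_pos h2, if_neg (by omega), if_pos (show (i : ℕ) < j + 1 by omega),
          if_pos (by omega), sup_bot_eq]
      · by_cases h3 : (i : ℕ) = j
        · rw [if_neg h2, if_pos h3, if_pos (by omega), if_pos (by omega), bot_sup_eq]
        · rw [if_neg h2, if_neg h3, if_neg (show ¬ (i : ℕ) < j + 1 by omega)]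
          exact sup_idem _
    have h2 := N149.Tow.hh_inf_sup (law_uw hA) (fun ω : A => (ω : Fin n → V)) (Pj n j k N) E
    rw [e1, e2, e3] at h2
    push_cast
    linarith

/-- pigeonhole over the scales -/
theorem exists_k (f : ℕ → ℝ) (hf : ∀ i, f i ≤ f (i + 1)) {L : ℝ} (h0 : 0 ≤ f 0)
    (hL : ∀ i, f i ≤ 2 * L) {n : ℕ} (hn : 8 ≤ n) :
    ∃ k, n ≤ 2 * k ∧ k + 2 ≤ n ∧ f (k + 1) - f k ≤ 16 * L / n := by
  by_contra hcon
  push Not at hcon
  set h := (n + 1) / 2 with hh
  have key : ∀ q, q ≤ n / 4 → (q : ℝ) * (16 * L / n) ≤ f (h + q) - f h := by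
    intro q
    induction q with
    | zero =>
      intro _
      simp
    | succ q ih =>
      intro hq
      have h1 := ih (by omega)
      have h2 := hcon (h + q) (by omega) (by omega)
      push_cast
      have e : h + (q + 1) = h + q + 1 := by ring
      rw [e]
      nlinarith
  have h1 := key (n / 4) (le_refl _)
  have hmono : Monotone f := monotone_nat_of_le_succ hf
  have hLnn : 0 ≤ L := by
    have := hL 0
    linarith
  have hn' : (0 : ℝ) < n := by
    have : 0 < n := by omega
    exact_mod_cast this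
  have h2 : (n : ℝ) / 8 ≤ ((n / 4 : ℕ) : ℝ) := by
    have h3 : n ≤ 8 * (n / 4) := by omega
    have h4 : (n : ℝ) ≤ 8 * ((n / 4 : ℕ) : ℝ) := by exact_mod_cast h3
    linarith
  have h3 : 2 * L ≤ ((n / 4 : ℕ) : ℝ) * (16 * L / n) := by
    have h4 : (n : ℝ) / 8 * (16 * L / n) = 2 * L := by
      field_simp
      ring
    rw [← h4]
    exact mul_le_mul_of_nonneg_right h2 (by positivity)
  -- strictness
  have h5 : f (h + n / 4) ≤ 2 * L := hL _
  have h6 : 0 ≤ f h := le_trans h0 (hmono (Nat.zero_le _))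
  -- the last step is strict
  have hq : 1 ≤ n / 4 := by omega
  obtain ⟨q, hq'⟩ : ∃ q, n / 4 = q + 1 := ⟨n / 4 - 1, by omega⟩
  have h7 := key q (by omega)
  have h8 := hcon (h + q) (by omega) (by omega)
  rw [hq'] at h3 h5
  have e : h + (q + 1) = h + q + 1 := by ring
  rw [e] at h5
  push_cast at h3
  nlinarith

end Pool.Agent.T9h99.Sym
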